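import Pool.Agent.Lib.MP_a3b162_co.ES.Defs

/-!
MP_a3b162_co, hand-in ManyEdges: the configuration in `ℝ^(M+1) × ℝ × ℝ` with `2^M` classes.
-/

set_option autoImplicit false

namespace Pool.Agent.Lib.MP_a3b162_co.ES

open Pool.Agent.Lib.MP_a3b162_co

/-- the space -/
abbrev Sp (M : ℕ) : Type := (Fin (M + 1) → ℝ) × ℝ × ℝ

/-- the sign vector with first coordinate 1 -/
def zz {M : ℕ} (c : Fin M → Bool) : Fin (M + 1) → ℝ := Fin.cons 1 (fun a => sg (c a))

/-- the heights are positive and far apart -/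
def Sep {M : ℕ} (h : (Fin M → Bool) → ℝ) : Prop :=
  (∀ c, 0 < h c) ∧ ∀ c c', c ≠ c' → 8 * ((M : ℝ) + 1) * h c ≤ h c' ∨ 8 * ((M : ℝ) + 1) * h c' ≤ h c

/-- vertices -/
noncomputable def zV {M : ℕ} (h : (Fin M → Bool) → ℝ) (ε : ℝ) (c : Fin M → Bool) : Sp M :=
  (1 / (1 + ε * h c ^ 2)) • ((zz c, h c, 0) : Sp M)

/-- tangents -/
noncomputable def zT {M : ℕ} (h : (Fin M → Bool) → ℝ) (ε : ℝ) (c : Fin M → Bool) : Sp M :=
  ((0, h c ^ 2, 1) : Sp M) - (2 * ε * h c ^ 3) • zV h ε c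

/-- second order vectors -/
noncomputable def zN {M : ℕ} (h : (Fin M → Bool) → ℝ) (B ε : ℝ) (c : Fin M → Bool) : Sp M :=
  ((0, 1, -(h c ^ 2)) : Sp M) - (2 * ε * (h c + B * (1 + h c ^ 4))) • zV h ε c

/-- third order vectors -/
def zB {M : ℕ} (c : Fin M → Bool) : Sp M :=
  (fun a => if a.val = 0 then 1 else if a.val = 1 then -(zz c a) else 0, 0, 0)

/-- the linear form `(w, a, b) ↦ ∑ f i w i + p a + q b` -/
noncomputable def lf {M : ℕ} (f : Fin (M + 1) → ℝ) (p q : ℝ) : Sp M →ₗ[ℝ] ℝ where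
  toFun x := ∑ i, f i * x.1 i + p * x.2.1 + q * x.2.2
  map_add' x y := by
    simp only [Prod.fst_add, Prod.snd_add, Pi.add_apply, mul_add, Finset.sum_add_distrib]
    ring
  map_smul' c x := by
    simp only [Prod.smul_fst, Prod.smul_snd, Pi.smul_apply, smul_eq_mul, RingHom.id_apply]
    have : ∑ i, f i * (c * x.1 i) = c * ∑ i, f i * x.1 i := by
      rw [Finset.mul_sum]
      exact Finset.sum_congr rfl fun i _ => by ring
    rw [this]
    ring

theorem lf_apply {M : ℕ} (f : Fin (M + 1) → ℝ) (p q : ℝ) (x : Sp M) :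
    lf f p q x = ∑ i, f i * x.1 i + p * x.2.1 + q * x.2.2 := rfl

/-- `P`: half sum of two sign vectors, `Q`: half difference -/
noncomputable def zP {M : ℕ} (x y : Fin M → Bool) (b : Bool) (a : Fin (M + 1)) : ℝ :=
  (zz x a + sg b * zz y a) / 2

noncomputable def zQ {M : ℕ} (x y : Fin M → Bool) (b : Bool) (a : Fin (M + 1)) : ℝ :=
  (zz x a - sg b * zz y a) / 2

noncomputable def nP {M : ℕ} (x y : Fin M → Bool) (b : Bool) : ℝ := ∑ a, zP x y b a ^ 2

noncomputable def nQ {M : ℕ} (x y : Fin M → Bool) (b : Bool) : ℝ := ∑ a, zQ x y b a ^ 2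

end Pool.Agent.Lib.MP_a3b162_co.ES
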