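import Mathlib

/-!
MODULE B1.  The inequality.

PROOF.  `|H| ≤ a / 8`, `κ = H^2 / (a + H)` satisfies `0 ≤ κ ≤ a / 56`.
If `8 N |K| ≤ a`: `|K - H| ≤ a / (4 N)`, `0 < 2 (a + κ) - H - K ≤ (2 + 1/28 + 1/4) a`, so the left side is at
most `(a / 4) (2.29 a) ≤ 0.58 a^2`, the right side at least `(7/8)^2 a^2 > 0.76 a^2`.
If `8 N a ≤ |K|` then `|K| ≥ 8 a`; for `K > 0`: `K - H > 0 > 2 (a + κ) - H - K`; for `K < 0`:
`K - H < 0 < 2 (a + κ) - H - K`; the left side is negative, the right side positive.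
-/

set_option autoImplicit false

namespace Pool.Agent.Lib.MP_a3b162_co.ES

theorem kap_bound {a H : ℝ} (ha : 0 < a) (hH : 8 * |H| ≤ a) :
    0 ≤ H ^ 2 / (a + H) ∧ H ^ 2 / (a + H) ≤ a / 56 := by
  have h1 : |H| ≤ a / 8 := by linarith
  have h2 := abs_le.1 h1
  have h3 : 0 < a + H := by linarith [h2.1]
  refine ⟨by positivity, ?_⟩
  rw [div_le_div_iff₀ h3 (by norm_num)]
  nlinarith [h2.1, h2.2, mul_nonneg (sub_nonneg.2 h2.2) (by linarith [h2.1] : 0 ≤ H + a / 8)]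

theorem near_ineq {N a H K : ℝ} (hN : 1 ≤ N) (ha : 0 < a) (hH : 8 * N * |H| ≤ a)
    (hK : 8 * N * |K| ≤ a ∨ 8 * N * a ≤ |K|) :
    N * ((K - H) * (2 * (a + H ^ 2 / (a + H)) - H - K)) <
      (a - H) * (a - H + 2 * (H ^ 2 / (a + H))) := by
  have hH0 : 0 ≤ |H| := abs_nonneg H
  have hK0 : 0 ≤ |K| := abs_nonneg K
  have hH8 : 8 * |H| ≤ a := by nlinarith
  obtain ⟨hk0, hk1⟩ := kap_bound ha hH8
  generalize H ^ 2 / (a + H) = κ at hk0 hk1 ⊢
  have h1 : |H| ≤ a / 8 := by linarith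
  have h2 := abs_le.1 h1
  have hR : 49 / 64 * a ^ 2 ≤ (a - H) * (a - H + 2 * κ) := by
    have e1 : 7 / 8 * a ≤ a - H := by linarith [h2.2]
    have e2 : 7 / 8 * a ≤ a - H + 2 * κ := by linarith
    have e3 : (7 / 8 * a) * (7 / 8 * a) ≤ (a - H) * (a - H + 2 * κ) :=
      mul_le_mul e1 e2 (by positivity) (by linarith)
    nlinarith
  have ha2 : 0 < a ^ 2 := by positivity
  rcases hK with hK | hK
  · have hK8 : 8 * |K| ≤ a := by nlinarith
    have h3 : |K| ≤ a / 8 := by linarith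
    have h4 := abs_le.1 h3
    have h5 : 0 ≤ 2 * (a + κ) - H - K := by linarith [h2.2, h4.2]
    have h6 : 2 * (a + κ) - H - K ≤ (2 + 1 / 28 + 1 / 4) * a := by linarith [h2.1, h4.1]
    have h7 : N * (K - H) ≤ a / 4 := by
      have e1 : K - H ≤ |K| + |H| := by linarith [le_abs_self K, neg_abs_le H]
      nlinarith
    have h8 : N * ((K - H) * (2 * (a + κ) - H - K)) ≤ a / 4 * ((2 + 1 / 28 + 1 / 4) * a) := by
      calc N * ((K - H) * (2 * (a + κ) - H - K)) = (N * (K - H)) * (2 * (a + κ) - H - K) := by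
            ring
        _ ≤ a / 4 * (2 * (a + κ) - H - K) := mul_le_mul_of_nonneg_right h7 h5
        _ ≤ a / 4 * ((2 + 1 / 28 + 1 / 4) * a) := mul_le_mul_of_nonneg_left h6 (by positivity)
    nlinarith
  · have hK8 : 8 * a ≤ |K| := by nlinarith
    have hneg : (K - H) * (2 * (a + κ) - H - K) ≤ 0 := by
      rcases le_total 0 K with h | h
      · rw [abs_of_nonneg h] at hK8
        exact mul_nonpos_of_nonneg_of_nonpos (by linarith [h2.2]) (by linarith [h2.1])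
      · rw [abs_of_nonpos h] at hK8
        exact mul_nonpos_of_nonpos_of_nonneg (by linarith [h2.1]) (by linarith [h2.2])
    have h9 : N * ((K - H) * (2 * (a + κ) - H - K)) ≤ 0 :=
      mul_nonpos_of_nonneg_of_nonpos (by linarith) hneg
    nlinarith

end Pool.Agent.Lib.MP_a3b162_co.ES
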