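import Pool.Agent.Lib.MP_a3b162_co.ES.Zfacts
import Pool.Agent.Lib.MP_a3b162_co.ES.Ineq

/-!
MODULE B5.  The functional of a pair of classes, `x` dominating (`8 (M+1) h_y ≤ h_x`).

PROOF.  `H = sg b * h_y`, `κ = H^2 / (h_x + H)`, `q₁ = h_x + κ`, `q₂ = -(h_x^2 κ)`,
`α_x = h_x^2 - 2 q₁ h_x`, `α_y = H^2 - 2 q₁ H`, `A_x = 1 + ε α_x`, `A_y = 1 + ε α_y`,
`f a = (A_x + A_y)/2 * zP a / nP + (A_x - A_y)/2 * zQ a / nQ`, `φ = lf f (2 ε q₁) (2 ε q₂)`.
Values: `∑ f a zz x a = A_x`, `∑ f a zz y a = sg b A_y` (`zP_x`, ...).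
`φ (v_x) = (A_x + 2 ε q₁ h_x)/(1 + ε h_x^2) = 1`; `φ (v_y) = sg b (A_y + 2 ε q₁ H)/(1 + ε H^2) = sg b`
(`h_y = sg b H`, `h_y^2 = H^2`).
`q₁ h_x^2 + q₂ = h_x^3`, hence `φ (t_x) = 0`; `q₁ h_y^2 + q₂ = H^3` (because
`q₁ H^2 - h_x^2 κ = h_x H^2 - κ (h_x - H)(h_x + H) = H^3`), hence `φ (t_y) = 2 ε H^3 - 2 ε h_y^3 sg b = 0`.
`φ (n_x) = 2 ε (κ - B)(1 + h_x^4) < 0`; `sg b φ (n_y) = 2 ε (sg b q₁ - h_y - B)(1 + h_y^4) < 0`
(`q₁ ≤ 2 h_x ≤ B`; `kap_bound`).
Other classes: for `τ` with `K = sg τ h_k`, `p = (sg τ ∑ zP zz k)/nP`, `m = (sg τ ∑ zQ zz k)/nQ`, the inequality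
`sg τ φ (v_k) < 1` is `p + ε ((α_x + α_y)/2 p + (α_x - α_y)/2 m) + 2 ε q₁ K < 1 + ε K^2`.
By `zfacts` either `p ≤ 1 - 2/(M+1)` and it holds for small `ε` (`|p|, |m| ≤ 1`: enough
`ε (|α_x| + |α_y| + 2 |q₁ K|) < 2/(M+1)`), or `p = 1`, `m ≥ -1 + 2/(M+1)` and it is, for every `ε > 0`,
`(α_x + α_y)/2 + m (α_x - α_y)/2 < K^2 - 2 q₁ K`; with `δ_x = (h_x - q₁)^2 = κ^2`, `δ_y = (H - q₁)^2`,
`δ_k = (K - q₁)^2` (`α = δ - q₁^2`) it reads `δ_y - (1 + m)(δ_y - δ_x)/2 < δ_k`, and follows from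
`(M+1)(δ_y - δ_k) < δ_y - δ_x` (`near_ineq` with `N = M + 1`, `a = h_x`; `|K| = h_k` and `Sep`; if `k = x` or
`k = y` are excluded) and `δ_y - δ_x > 0`.  `|φ (v_k)| < 1` from both `τ`; finitely many `k`.
-/

set_option autoImplicit false

namespace Pool.Agent.Lib.MP_a3b162_co.ES

open Pool.Agent.Lib.MP_a3b162_co

theorem b5_val {M : ℕ} (f : Fin (M + 1) → ℝ) (p q : ℝ) (h : (Fin M → Bool) → ℝ) (ε : ℝ)
    (c : Fin M → Bool) :
    lf f p q (zV h ε c) = (1 / (1 + ε * h c ^ 2)) * (∑ i, f i * zz c i + p * h c) := by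
  unfold zV
  rw [map_smul, lf_apply]
  simp

theorem b5_T {M : ℕ} (f : Fin (M + 1) → ℝ) (p q : ℝ) (h : (Fin M → Bool) → ℝ) (ε : ℝ)
    (c : Fin M → Bool) :
    lf f p q (zT h ε c) = p * h c ^ 2 + q - 2 * ε * h c ^ 3 * lf f p q (zV h ε c) := by
  unfold zT
  rw [map_sub, map_smul, lf_apply]
  simp

theorem b5_N {M : ℕ} (f : Fin (M + 1) → ℝ) (p q : ℝ) (h : (Fin M → Bool) → ℝ) (B ε : ℝ)
    (c : Fin M → Bool) :
    lf f p q (zN h B ε c) =
      p - q * h c ^ 2 - 2 * ε * (h c + B * (1 + h c ^ 4)) * lf f p q (zV h ε c) := by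
  unfold zN
  rw [map_sub, map_smul, lf_apply]
  simp
  ring

theorem b5_sg (b : Bool) : sg b ^ 2 = 1 := by rw [sq]; exact sg_mul_self b

/-- the exact inequality on a face -/
theorem b5_face {N a H K m κ q : ℝ} (hN : 1 ≤ N) (hq : q = a + κ) (hD : 0 < (a - H) * (a - H + 2 * κ))
    (h1 : N * ((K - H) * (2 * (a + κ) - H - K)) < (a - H) * (a - H + 2 * κ))
    (hm : -1 + 2 / N ≤ m) :
    ((a ^ 2 - 2 * q * a) + (H ^ 2 - 2 * q * H)) / 2 + ((a ^ 2 - 2 * q * a) - (H ^ 2 - 2 * q * H)) / 2 * m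
      + 2 * q * K < K ^ 2 := by
  have hN0 : 0 < N := by linarith
  set D := (a - H) * (a - H + 2 * κ) with hDdef
  have h2 : (K - H) * (2 * (a + κ) - H - K) < D / N := by
    rw [lt_div_iff₀ hN0]
    linarith
  have h3 : D / N ≤ (1 + m) / 2 * D := by
    have : 1 / N ≤ (1 + m) / 2 := by
      have : 1 / N = (2 / N) / 2 := by ring
      rw [this]
      linarith
    calc D / N = 1 / N * D := by ring
      _ ≤ (1 + m) / 2 * D := mul_le_mul_of_nonneg_right this hD.le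
  subst hq
  have h4 : (K - H) * (2 * (a + κ) - H - K) < (1 + m) / 2 * D := h2.trans_le h3
  rw [hDdef] at h4
  nlinarith [h4]

theorem b5_other {M : ℕ} {h : (Fin M → Bool) → ℝ} (hh : Sep h)
    {x y : Fin M → Bool} (hne : x ≠ y) (hxy : 8 * ((M : ℝ) + 1) * h y ≤ h x) (b : Bool)
    (k : Fin M → Bool) (τ : Bool) (hkx : k ≠ x) (hky : k ≠ y) :
    ∀ᶠ ε : ℝ in nhdsWithin 0 (Set.Ioi 0),
      (sg τ * ∑ a, zP x y b a * zz k a) / nP x y b +
        ε * (((h x ^ 2 - 2 * (h x + (sg b * h y) ^ 2 / (h x + sg b * h y)) * h x) +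
          ((sg b * h y) ^ 2 - 2 * (h x + (sg b * h y) ^ 2 / (h x + sg b * h y)) * (sg b * h y))) / 2 *
            ((sg τ * ∑ a, zP x y b a * zz k a) / nP x y b) +
          ((h x ^ 2 - 2 * (h x + (sg b * h y) ^ 2 / (h x + sg b * h y)) * h x) -
          ((sg b * h y) ^ 2 - 2 * (h x + (sg b * h y) ^ 2 / (h x + sg b * h y)) * (sg b * h y))) / 2 *
            ((sg τ * ∑ a, zQ x y b a * zz k a) / nQ x y b)) +
        2 * ε * (h x + (sg b * h y) ^ 2 / (h x + sg b * h y)) * (sg τ * h k) <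
      1 + ε * (sg τ * h k) ^ 2 := by
  have hx := hh.1 x
  have hy := hh.1 y
  have hM : (1 : ℝ) ≤ (M : ℝ) + 1 := by
    have : (0 : ℝ) ≤ M := Nat.cast_nonneg M
    linarith
  have habs : |sg b * h y| = h y := by rw [abs_mul, abs_sg, one_mul, abs_of_pos hy]
  have habsK : |sg τ * h k| = h k := by rw [abs_mul, abs_sg, one_mul, abs_of_pos (hh.1 k)]
  have h8 : 8 * |sg b * h y| ≤ h x := by
    rw [habs]
    nlinarith
  obtain ⟨hκ0, hκ1⟩ := kap_bound hx h8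
  set H := sg b * h y with hHdef
  set κ := H ^ 2 / (h x + H) with hκ
  have hHa : |H| ≤ h x / 8 := by linarith
  obtain ⟨hH1, hH2⟩ := abs_le.1 hHa
  rcases zfacts hne b k τ (fun hc => hkx hc.1) (fun hc => hky hc.1) with hp | ⟨hp, hm⟩
  · set p := (sg τ * ∑ a, zP x y b a * zz k a) / nP x y b with hpdef
    set m := (sg τ * ∑ a, zQ x y b a * zz k a) / nQ x y b with hmdef
    have hp1 : p < 1 := by
      have : 0 < 2 / ((M : ℝ) + 1) := by positivity
      linarith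
    have hc : ContinuousAt (fun ε : ℝ => p +
        ε * (((h x ^ 2 - 2 * (h x + κ) * h x) + (H ^ 2 - 2 * (h x + κ) * H)) / 2 * p +
          ((h x ^ 2 - 2 * (h x + κ) * h x) - (H ^ 2 - 2 * (h x + κ) * H)) / 2 * m) +
        2 * ε * (h x + κ) * (sg τ * h k) - (1 + ε * (sg τ * h k) ^ 2)) 0 := by
      fun_prop
    have h0 : (fun ε : ℝ => p +
        ε * (((h x ^ 2 - 2 * (h x + κ) * h x) + (H ^ 2 - 2 * (h x + κ) * H)) / 2 * p +
          ((h x ^ 2 - 2 * (h x + κ) * h x) - (H ^ 2 - 2 * (h x + κ) * H)) / 2 * m) +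
        2 * ε * (h x + κ) * (sg τ * h k) - (1 + ε * (sg τ * h k) ^ 2)) 0 < 0 := by
      simp only
      linarith
    have h1 := hc.eventually (gt_mem_nhds h0)
    filter_upwards [nhdsWithin_le_nhds h1] with ε hε
    have := sub_neg.1 hε
    exact this
  · set m := (sg τ * ∑ a, zQ x y b a * zz k a) / nQ x y b with hmdef
    have hK : 8 * ((M : ℝ) + 1) * |sg τ * h k| ≤ h x ∨ 8 * ((M : ℝ) + 1) * h x ≤ |sg τ * h k| := by
      rw [habsK]
      exact hh.2 k x hkx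
    have h1 := near_ineq hM hx (by rw [habs]; exact hxy) hK
    have hD : 0 < (h x - H) * (h x - H + 2 * κ) := by
      apply mul_pos <;> linarith
    have h2 := b5_face (κ := κ) hM rfl hD h1 hm
    filter_upwards [self_mem_nhdsWithin] with ε hε
    have hε0 : (0 : ℝ) < ε := hε
    rw [hp]
    nlinarith [mul_lt_mul_of_pos_left h2 hε0]

theorem conf_cross {M : ℕ} {h : (Fin M → Bool) → ℝ} (hh : Sep h) {B : ℝ} (hB : ∀ c, 4 * h c ≤ B)
    {x y : Fin M → Bool} (hne : x ≠ y) (hxy : 8 * ((M : ℝ) + 1) * h y ≤ h x) (b : Bool) :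
    ∀ᶠ ε : ℝ in nhdsWithin 0 (Set.Ioi 0), ∃ φ : Sp M →ₗ[ℝ] ℝ,
      φ (zV h ε x) = 1 ∧ φ (zV h ε y) = sg b ∧ φ (zT h ε x) = 0 ∧ φ (zT h ε y) = 0 ∧
      φ (zN h B ε x) < 0 ∧ sg b * φ (zN h B ε y) < 0 ∧
      ∀ k, k ≠ x → k ≠ y → |φ (zV h ε k)| < 1 := by
  have hx := hh.1 x
  have hy := hh.1 y
  have hM : (1 : ℝ) ≤ (M : ℝ) + 1 := by
    have : (0 : ℝ) ≤ M := Nat.cast_nonneg M
    linarith
  have habs : |sg b * h y| = h y := by rw [abs_mul, abs_sg, one_mul, abs_of_pos hy]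
  have h8 : 8 * |sg b * h y| ≤ h x := by
    rw [habs]
    nlinarith
  have hyx : h y ≤ h x / 8 := by
    rw [habs] at h8
    linarith
  obtain ⟨hκ0, hκ1⟩ := kap_bound hx h8
  have hall : ∀ᶠ ε : ℝ in nhdsWithin 0 (Set.Ioi 0), ∀ k : Fin M → Bool, ∀ τ : Bool,
      k ≠ x → k ≠ y →
      (sg τ * ∑ a, zP x y b a * zz k a) / nP x y b +
        ε * (((h x ^ 2 - 2 * (h x + (sg b * h y) ^ 2 / (h x + sg b * h y)) * h x) +
          ((sg b * h y) ^ 2 - 2 * (h x + (sg b * h y) ^ 2 / (h x + sg b * h y)) * (sg b * h y))) / 2 *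
            ((sg τ * ∑ a, zP x y b a * zz k a) / nP x y b) +
          ((h x ^ 2 - 2 * (h x + (sg b * h y) ^ 2 / (h x + sg b * h y)) * h x) -
          ((sg b * h y) ^ 2 - 2 * (h x + (sg b * h y) ^ 2 / (h x + sg b * h y)) * (sg b * h y))) / 2 *
            ((sg τ * ∑ a, zQ x y b a * zz k a) / nQ x y b)) +
        2 * ε * (h x + (sg b * h y) ^ 2 / (h x + sg b * h y)) * (sg τ * h k) <
      1 + ε * (sg τ * h k) ^ 2 := by
    rw [Filter.eventually_all]
    intro k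
    rw [Filter.eventually_all]
    intro τ
    by_cases hk : k = x
    · exact Filter.Eventually.of_forall fun _ h1 => absurd hk h1
    by_cases hk' : k = y
    · exact Filter.Eventually.of_forall fun _ _ h1 => absurd hk' h1
    · exact (b5_other hh hne hxy b k τ hk hk').mono fun _ h1 _ _ => h1
  filter_upwards [hall, self_mem_nhdsWithin] with ε hε hε0
  have hε1 : (0 : ℝ) < ε := hε0
  have hHa : |sg b * h y| ≤ h x / 8 := by linarith
  obtain ⟨hH1, hH2⟩ := abs_le.1 hHa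
  have hs := b5_sg b
  have hnP := (nP_pos hne b).ne'
  have hnQ := (nQ_pos hne b).ne'
  have hden : h x + sg b * h y ≠ 0 := by
    have : 0 < h x + sg b * h y := by linarith
    exact this.ne'
  set s := sg b with hsdef
  have hκe : s * h y * (s * h y) = (s * h y) ^ 2 / (h x + s * h y) * (h x + s * h y) := by
    field_simp
  set κ := (s * h y) ^ 2 / (h x + s * h y) with hκ
  clear_value κ
  have hE : (h x + κ) * h y ^ 2 - h x ^ 2 * κ - s * h y ^ 3 = 0 := by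
    linear_combination (h x - s * h y) * hκe -
      (h x * h y ^ 2 + κ * h y ^ 2 - s * h y ^ 3) * hs
  set αx := h x ^ 2 - 2 * (h x + κ) * h x with hαx
  set αy := (s * h y) ^ 2 - 2 * (h x + κ) * (s * h y) with hαy
  set f : Fin (M + 1) → ℝ := fun a => (2 + ε * (αx + αy)) / 2 * (zP x y b a / nP x y b) +
    (ε * (αx - αy)) / 2 * (zQ x y b a / nQ x y b) with hf
  have hsum : ∀ c : Fin M → Bool, ∑ a, f a * zz c a =
      (2 + ε * (αx + αy)) / 2 * ((∑ a, zP x y b a * zz c a) / nP x y b) +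
      (ε * (αx - αy)) / 2 * ((∑ a, zQ x y b a * zz c a) / nQ x y b) := by
    intro c
    rw [Finset.sum_div, Finset.sum_div, Finset.mul_sum, Finset.mul_sum,
      ← Finset.sum_add_distrib]
    refine Finset.sum_congr rfl fun a _ => ?_
    simp only [hf]
    ring
  have hsx : ∑ a, f a * zz x a = 1 + ε * αx := by
    rw [hsum, zP_x, zQ_x, div_self hnP, div_self hnQ]
    ring
  have hsy : ∑ a, f a * zz y a = s * (1 + ε * αy) := by
    rw [hsum, zP_y, zQ_y, mul_div_assoc (sg b) (nP x y b), neg_div,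
      mul_div_assoc (sg b) (nQ x y b), div_self hnP, div_self hnQ]
    ring
  have hDx : 0 < 1 + ε * h x ^ 2 := by positivity
  have hDy : 0 < 1 + ε * h y ^ 2 := by positivity
  have hvx : lf f (2 * ε * (h x + κ)) (2 * ε * (-(h x ^ 2 * κ))) (zV h ε x) = 1 := by
    rw [b5_val, hsx, one_div, inv_mul_eq_one₀ hDx.ne', hαx]
    ring
  have hvy : lf f (2 * ε * (h x + κ)) (2 * ε * (-(h x ^ 2 * κ))) (zV h ε y) = s := by
    have e1 : s * (1 + ε * αy) + 2 * ε * (h x + κ) * h y = s * (1 + ε * h y ^ 2) := by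
      rw [hαy]
      linear_combination (ε * s * h y ^ 2 - 2 * ε * (h x + κ) * h y) * hs
    rw [b5_val, hsy, e1, one_div]
    field_simp
  refine ⟨lf f (2 * ε * (h x + κ)) (2 * ε * (-(h x ^ 2 * κ))), hvx, hvy, ?_, ?_, ?_, ?_, ?_⟩
  · rw [b5_T, hvx]
    ring
  · rw [b5_T, hvy]
    linear_combination (2 * ε) * hE
  · rw [b5_N, hvx]
    have hBx := hB x
    have h4 : κ - B < 0 := by linarith
    have h5 : 0 < 1 + h x ^ 4 := by positivity
    nlinarith [mul_pos hε1 (mul_pos (neg_pos.2 h4) h5)]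
  · rw [b5_N, hvy]
    have hBx := hB x
    have h5 : 0 < 1 + h y ^ 4 := by positivity
    have h6 : s * (h x + κ) - h y - B < 0 := by
      have : s * (h x + κ) ≤ h x + κ := by
        have h7 : |s| = 1 := abs_sg b
        have h8 : s ≤ 1 := h7 ▸ le_abs_self s
        nlinarith
      linarith
    have e2 : s * (2 * ε * (h x + κ) - 2 * ε * (-(h x ^ 2 * κ)) * h y ^ 2 -
        2 * ε * (h y + B * (1 + h y ^ 4)) * s) =
        2 * ε * ((s * (h x + κ) - h y - B) * (1 + h y ^ 4)) := by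
      linear_combination (-(2 * ε * s * h y ^ 2)) * hE -
        2 * ε * (h y ^ 5 + h y + B * (1 + h y ^ 4)) * hs
    rw [e2]
    nlinarith [mul_pos hε1 (mul_pos (neg_pos.2 h6) h5)]
  · intro k hkx hky
    have hDk : 0 < 1 + ε * h k ^ 2 := by positivity
    have h9 : ∀ τ : Bool, sg τ * lf f (2 * ε * (h x + κ)) (2 * ε * (-(h x ^ 2 * κ)))
        (zV h ε k) < 1 := by
      intro τ
      have h10 := hε k τ hkx hky
      rw [b5_val, hsum]
      have h11 : sg τ * (1 / (1 + ε * h k ^ 2) * ((2 + ε * (αx + αy)) / 2 *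
          ((∑ a, zP x y b a * zz k a) / nP x y b) +
          ε * (αx - αy) / 2 * ((∑ a, zQ x y b a * zz k a) / nQ x y b) +
          2 * ε * (h x + κ) * h k)) =
          ((sg τ * ∑ a, zP x y b a * zz k a) / nP x y b +
          ε * ((αx + αy) / 2 * ((sg τ * ∑ a, zP x y b a * zz k a) / nP x y b) +
          (αx - αy) / 2 * ((sg τ * ∑ a, zQ x y b a * zz k a) / nQ x y b)) +
          2 * ε * (h x + κ) * (sg τ * h k)) / (1 + ε * h k ^ 2) := by
        ring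
      rw [h11, div_lt_one hDk]
      have h12 : (sg τ * h k) ^ 2 = h k ^ 2 := by
        rw [mul_pow, b5_sg, one_mul]
      rw [h12] at h10
      exact h10
    have h13 := h9 true
    have h14 := h9 false
    simp only [sg_true, sg_false, one_mul] at h13 h14
    rw [abs_lt]
    constructor <;> linarith

end Pool.Agent.Lib.MP_a3b162_co.ES
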