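import Pool.Agent.Lib.MP_a3b162_co.ES.Conf

/-!
MODULE B3.  Linear independence in the configuration.

PROOF.  (ind1) Suppose `a v_x + b t_x + a' v_y + b' t_y = 0`.  With `α = a - 2 ε h_x^3 b`, `α' = a' - 2 ε h_y^3 b'`
this is `α v_x + α' v_y + b (0, h_x^2, 1) + b' (0, h_y^2, 1) = 0`.  First component:
`(α / D_x) zz x + (α' / D_y) zz y = 0`; at the coordinate `0` and at a coordinate where `x, y` differ:
`α = α' = 0`.  Then `b h_x^2 + b' h_y^2 = 0`, `b + b' = 0`, so `b = b' = 0` since `h_x^2 ≠ h_y^2`.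
(ind2) Suppose `a v + b t + c n + e bb = 0`: `α v + b (0, θ, 1) + c (0, 1, -θ) + e bb = 0` (`θ = h^2`); coordinates
`0` and `1` of the first component: `α / D + e = 0`, `(α / D - e) zz c 1 = 0`; so `α = e = 0`, then
`b θ + c = 0`, `b - c θ = 0`, `b (1 + θ^2) = 0`.
(`LinearIndependent.pair_iff` style: use `Fintype.linearIndependent_iff` and `Fin.sum_univ_four`.)
-/

set_option autoImplicit false

namespace Pool.Agent.Lib.MP_a3b162_co.ES

open Pool.Agent.Lib.MP_a3b162_co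

theorem ci_zV1 {M : ℕ} (h : (Fin M → Bool) → ℝ) (ε : ℝ) (c : Fin M → Bool) (i : Fin (M + 1)) :
    (zV h ε c).1 i = 1 / (1 + ε * h c ^ 2) * zz c i := by
  simp only [zV, Prod.smul_fst, Pi.smul_apply, smul_eq_mul]

theorem ci_zV2 {M : ℕ} (h : (Fin M → Bool) → ℝ) (ε : ℝ) (c : Fin M → Bool) :
    (zV h ε c).2.1 = 1 / (1 + ε * h c ^ 2) * h c := by
  simp only [zV, Prod.smul_snd, Prod.smul_fst, smul_eq_mul]

theorem ci_zV3 {M : ℕ} (h : (Fin M → Bool) → ℝ) (ε : ℝ) (c : Fin M → Bool) :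
    (zV h ε c).2.2 = 0 := by
  simp only [zV, Prod.smul_snd, smul_eq_mul, mul_zero]

theorem ci_zT1 {M : ℕ} (h : (Fin M → Bool) → ℝ) (ε : ℝ) (c : Fin M → Bool) (i : Fin (M + 1)) :
    (zT h ε c).1 i = -(2 * ε * h c ^ 3 * (1 / (1 + ε * h c ^ 2) * zz c i)) := by
  simp only [zT, Prod.fst_sub, Prod.smul_fst, Pi.sub_apply, Pi.smul_apply, smul_eq_mul, ci_zV1,
    Pi.zero_apply, zero_sub]

theorem ci_zT2 {M : ℕ} (h : (Fin M → Bool) → ℝ) (ε : ℝ) (c : Fin M → Bool) :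
    (zT h ε c).2.1 = h c ^ 2 - 2 * ε * h c ^ 3 * (1 / (1 + ε * h c ^ 2) * h c) := by
  simp only [zT, Prod.snd_sub, Prod.fst_sub, Prod.smul_snd, Prod.smul_fst, smul_eq_mul, ci_zV2]

theorem ci_zT3 {M : ℕ} (h : (Fin M → Bool) → ℝ) (ε : ℝ) (c : Fin M → Bool) :
    (zT h ε c).2.2 = 1 := by
  simp only [zT, Prod.snd_sub, Prod.smul_snd, smul_eq_mul, ci_zV3, mul_zero, sub_zero]

theorem ci_zN1 {M : ℕ} (h : (Fin M → Bool) → ℝ) (B ε : ℝ) (c : Fin M → Bool) (i : Fin (M + 1)) :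
    (zN h B ε c).1 i =
      -(2 * ε * (h c + B * (1 + h c ^ 4)) * (1 / (1 + ε * h c ^ 2) * zz c i)) := by
  simp only [zN, Prod.fst_sub, Prod.smul_fst, Pi.sub_apply, Pi.smul_apply, smul_eq_mul, ci_zV1,
    Pi.zero_apply, zero_sub]

theorem ci_zN2 {M : ℕ} (h : (Fin M → Bool) → ℝ) (B ε : ℝ) (c : Fin M → Bool) :
    (zN h B ε c).2.1 =
      1 - 2 * ε * (h c + B * (1 + h c ^ 4)) * (1 / (1 + ε * h c ^ 2) * h c) := by
  simp only [zN, Prod.snd_sub, Prod.fst_sub, Prod.smul_snd, Prod.smul_fst, smul_eq_mul, ci_zV2]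

theorem ci_zN3 {M : ℕ} (h : (Fin M → Bool) → ℝ) (B ε : ℝ) (c : Fin M → Bool) :
    (zN h B ε c).2.2 = -(h c ^ 2) := by
  simp only [zN, Prod.snd_sub, Prod.smul_snd, smul_eq_mul, ci_zV3, mul_zero, sub_zero]

theorem ci_zz0 {M : ℕ} (c : Fin M → Bool) : zz c 0 = 1 := by
  simp only [zz, Fin.cons_zero]

theorem ci_zzs {M : ℕ} (c : Fin M → Bool) (a : Fin M) : zz c a.succ = sg (c a) := by
  simp only [zz, Fin.cons_succ]

theorem ci_sgne {b b' : Bool} (h : b ≠ b') : sg b = -sg b' ∧ sg b' ≠ 0 := by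
  cases b <;> cases b' <;> simp_all [sg]

theorem conf_ind1 {M : ℕ} {h : (Fin M → Bool) → ℝ} (hh : Sep h) {ε : ℝ} (hε : 0 < ε)
    {x y : Fin M → Bool} (hxy : x ≠ y) :
    LinearIndependent ℝ ![zV h ε x, zT h ε x, zV h ε y, zT h ε y] := by
  rw [Fintype.linearIndependent_iff]
  intro g hg
  rw [Fin.sum_univ_four] at hg
  simp only [Matrix.cons_val_zero, Matrix.cons_val_one, Matrix.cons_val] at hg
  have hx : 0 < 1 + ε * h x ^ 2 := by positivity
  have hy : 0 < 1 + ε * h y ^ 2 := by positivity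
  have hx1 : 1 / (1 + ε * h x ^ 2) ≠ 0 := by positivity
  have hy1 : 1 / (1 + ε * h y ^ 2) ≠ 0 := by positivity
  obtain ⟨i, hi⟩ := Function.ne_iff.1 hxy
  obtain ⟨hs, hs0⟩ := ci_sgne hi
  have e0 := congrArg (fun p : Sp M => p.1 0) hg
  have e1 := congrArg (fun p : Sp M => p.1 i.succ) hg
  have e2 := congrArg (fun p : Sp M => p.2.1) hg
  have e3 := congrArg (fun p : Sp M => p.2.2) hg
  simp only [Prod.fst_add, Prod.snd_add, Prod.smul_fst, Prod.smul_snd, Pi.add_apply,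
    Pi.smul_apply, smul_eq_mul, ci_zV1, ci_zV2, ci_zV3, ci_zT1, ci_zT2, ci_zT3, ci_zz0, ci_zzs,
    Prod.fst_zero, Prod.snd_zero, Pi.zero_apply] at e0 e1 e2 e3
  rw [hs] at e1
  have hα : (g 0 - 2 * ε * h x ^ 3 * g 1) * (1 / (1 + ε * h x ^ 2)) = 0 := by
    have e1' : sg (y i) * (-((g 0 - 2 * ε * h x ^ 3 * g 1) * (1 / (1 + ε * h x ^ 2))) +
        (g 2 - 2 * ε * h y ^ 3 * g 3) * (1 / (1 + ε * h y ^ 2))) = 0 := by
      linear_combination e1
    have e1'' := (mul_eq_zero.1 e1').resolve_left hs0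
    linear_combination (1 / 2) * e0 - (1 / 2) * e1''
  have hα' : (g 2 - 2 * ε * h y ^ 3 * g 3) * (1 / (1 + ε * h y ^ 2)) = 0 := by
    linear_combination e0 - hα
  have hα2 := (mul_eq_zero.1 hα).resolve_right hx1
  have hα2' := (mul_eq_zero.1 hα').resolve_right hy1
  have h2 : g 1 * h x ^ 2 + g 3 * h y ^ 2 = 0 := by
    linear_combination e2 - h x * hα - h y * hα'
  have h3 : g 1 + g 3 = 0 := by linear_combination e3
  have hne : h x ^ 2 - h y ^ 2 ≠ 0 := by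
    have hx0 := hh.1 x
    have hy0 := hh.1 y
    have hM : (0 : ℝ) ≤ M := Nat.cast_nonneg M
    have hne' : h x ≠ h y := by
      intro he
      rcases hh.2 x y hxy with h4 | h4 <;> nlinarith [mul_nonneg hM hx0.le, mul_nonneg hM hy0.le]
    intro h5
    have h6 : (h x - h y) * (h x + h y) = 0 := by linear_combination h5
    rcases mul_eq_zero.1 h6 with h7 | h7
    · exact hne' (by linarith)
    · linarith
  have h1 : g 1 = 0 := by
    have : g 1 * (h x ^ 2 - h y ^ 2) = 0 := by linear_combination h2 - h y ^ 2 * h3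
    exact (mul_eq_zero.1 this).resolve_right hne
  have h3' : g 3 = 0 := by linarith
  have h0 : g 0 = 0 := by
    rw [h1] at hα2; linarith
  have h2' : g 2 = 0 := by
    rw [h3'] at hα2'; linarith
  intro j
  fin_cases j
  · exact h0
  · exact h1
  · exact h2'
  · exact h3'

theorem conf_ind2 {M : ℕ} (hM : 1 ≤ M) {h : (Fin M → Bool) → ℝ} {B ε : ℝ} (hε : 0 < ε)
    (c : Fin M → Bool) :
    LinearIndependent ℝ ![zV h ε c, zT h ε c, zN h B ε c, zB c] := by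
  rw [Fintype.linearIndependent_iff]
  intro g hg
  rw [Fin.sum_univ_four] at hg
  simp only [Matrix.cons_val_zero, Matrix.cons_val_one, Matrix.cons_val] at hg
  have hx : 0 < 1 + ε * h c ^ 2 := by positivity
  have hx1 : 1 / (1 + ε * h c ^ 2) ≠ 0 := by positivity
  have e0 := congrArg (fun p : Sp M => p.1 0) hg
  have e1 := congrArg (fun p : Sp M => p.1 (⟨0, by omega⟩ : Fin M).succ) hg
  have e2 := congrArg (fun p : Sp M => p.2.1) hg
  have e3 := congrArg (fun p : Sp M => p.2.2) hg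
  have b0 : (zB c).1 0 = 1 := by simp [zB]
  have b1 : (zB c).1 (⟨0, by omega⟩ : Fin M).succ = -(zz c (⟨0, by omega⟩ : Fin M).succ) := by
    simp [zB]
  have b2 : (zB c).2.1 = 0 := rfl
  have b3 : (zB c).2.2 = 0 := rfl
  simp only [Prod.fst_add, Prod.snd_add, Prod.smul_fst, Prod.smul_snd, Pi.add_apply,
    Pi.smul_apply, smul_eq_mul, ci_zV1, ci_zV2, ci_zV3, ci_zT1, ci_zT2, ci_zT3, ci_zN1, ci_zN2,
    ci_zN3, b0, b1, b2, b3, ci_zz0, ci_zzs,
    Prod.fst_zero, Prod.snd_zero, Pi.zero_apply] at e0 e1 e2 e3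
  have hs0 : sg (c ⟨0, by omega⟩) ≠ 0 := by
    cases c ⟨0, by omega⟩ <;> simp [sg]
  have e1' : sg (c ⟨0, by omega⟩) * ((g 0 - 2 * ε * h c ^ 3 * g 1 -
      2 * ε * (h c + B * (1 + h c ^ 4)) * g 2) * (1 / (1 + ε * h c ^ 2)) - g 3) = 0 := by
    linear_combination e1
  have e1'' := (mul_eq_zero.1 e1').resolve_left hs0
  have hα : (g 0 - 2 * ε * h c ^ 3 * g 1 -
      2 * ε * (h c + B * (1 + h c ^ 4)) * g 2) * (1 / (1 + ε * h c ^ 2)) = 0 := by
    linear_combination (1 / 2) * e0 + (1 / 2) * e1''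
  have h3 : g 3 = 0 := by linear_combination hα - e1''
  have hα2 := (mul_eq_zero.1 hα).resolve_right hx1
  have h4 : g 1 * h c ^ 2 + g 2 = 0 := by
    linear_combination e2 - h c * hα
  have h5 : g 1 - g 2 * h c ^ 2 = 0 := by linear_combination e3
  have h1 : g 1 = 0 := by
    have : g 1 * (1 + h c ^ 4) = 0 := by linear_combination h5 + h c ^ 2 * h4
    exact (mul_eq_zero.1 this).resolve_right (by positivity)
  have h2 : g 2 = 0 := by
    rw [h1] at h4; linarith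
  have h0 : g 0 = 0 := by
    rw [h1, h2] at hα2; linarith
  intro j
  fin_cases j
  · exact h0
  · exact h1
  · exact h2
  · exact h3

end Pool.Agent.Lib.MP_a3b162_co.ES
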