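import Pool.Agent.Lib.MP_a3b162_co.ES.Zfacts

/-!
MODULE B4.  The functional of a single class.

PROOF.  `A = 1 + ε (-h_x^2 - 2 B h_x)`, `χ = lf (fun a => A / (M+1) * zz x a) (2 ε (h_x + B)) (-(2 ε h_x^2 B))`.
`χ (v_x) = (A + 2 ε (h_x + B) h_x) / (1 + ε h_x^2) = 1`;
`χ (0, θ, 1) = 2 ε (h_x + B) θ - 2 ε θ B = 2 ε h_x θ` (`θ = h_x^2`), so `χ (t_x) = 0`;
`χ (0, 1, -θ) = 2 ε (h_x + B + θ^2 B)`, so `χ (n_x) = 0`; `χ (bb) = A/(M+1) (1 - 1) = 0`.
For `k ≠ x`: `|χ (v_k)| (1 + ε h_k^2) ≤ |A| (M-1)/(M+1) + 2 ε |h_x + B| h_k` (`zz_inner`), which tends to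
`(M-1)/(M+1) < 1` as `ε → 0`: eventually `< 1 ≤ 1 + ε h_k^2`; finitely many `k`.
-/

set_option autoImplicit false

namespace Pool.Agent.Lib.MP_a3b162_co.ES

open Pool.Agent.Lib.MP_a3b162_co

private theorem cs_sum {M : ℕ} (x : Fin M → Bool) (A : ℝ) (w : Fin (M + 1) → ℝ) :
    ∑ a, A / ((M : ℝ) + 1) * zz x a * w a = A / ((M : ℝ) + 1) * ∑ a, zz x a * w a := by
  rw [Finset.mul_sum]
  exact Finset.sum_congr rfl fun a _ => by ring

private theorem cs_self {M : ℕ} (x : Fin M → Bool) : ∑ a, zz x a * zz x a = (M : ℝ) + 1 := by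
  have h1 : ∀ a : Fin (M + 1), zz x a * zz x a = 1 := by
    intro a
    rcases zz_sq x a with h | h <;> rw [h] <;> norm_num
  rw [Finset.sum_congr rfl fun a _ => h1 a]
  simp

private theorem cs_zB {M : ℕ} (hM : 1 ≤ M) (x : Fin M → Bool) :
    ∑ a, zz x a * (zB x).1 a = 0 := by
  obtain ⟨m, rfl⟩ : ∃ m, M = m + 1 := ⟨M - 1, by omega⟩
  rw [Fin.sum_univ_succ, Fin.sum_univ_succ]
  have h0 : zz x 0 = 1 := rfl
  have h1 : zz x (Fin.succ (0 : Fin (m + 1))) * zz x (Fin.succ (0 : Fin (m + 1))) = 1 := by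
    rcases zz_sq x (Fin.succ (0 : Fin (m + 1))) with h | h <;> rw [h] <;> norm_num
  have h2 : ∑ i : Fin m, zz x i.succ.succ * (zB x).1 i.succ.succ = 0 := by
    refine Finset.sum_eq_zero fun i _ => ?_
    have : (zB x).1 i.succ.succ = 0 := by simp [zB]
    rw [this, mul_zero]
  have h3 : (zB x).1 (0 : Fin (m + 1 + 1)) = 1 := by simp [zB]
  have h4 : (zB x).1 (Fin.succ (0 : Fin (m + 1))) = -zz x (Fin.succ (0 : Fin (m + 1))) := by simp [zB]
  rw [h2, h3, h4, h0]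
  linarith

theorem conf_same {M : ℕ} (hM : 1 ≤ M) {h : (Fin M → Bool) → ℝ} (hh : Sep h) (B : ℝ)
    (x : Fin M → Bool) :
    ∀ᶠ ε : ℝ in nhdsWithin 0 (Set.Ioi 0), ∃ χ : Sp M →ₗ[ℝ] ℝ,
      χ (zV h ε x) = 1 ∧ χ (zT h ε x) = 0 ∧ χ (zN h B ε x) = 0 ∧ χ (zB x) = 0 ∧
      ∀ k, k ≠ x → |χ (zV h ε k)| < 1 := by
  have hM1 : (0 : ℝ) < (M : ℝ) + 1 := by positivity
  have hk : ∀ k : Fin M → Bool, ∀ᶠ ε : ℝ in nhdsWithin 0 (Set.Ioi 0), k ≠ x →
      |(1 + ε * (-(h x) ^ 2 - 2 * B * h x)) / ((M : ℝ) + 1) * (∑ a, zz x a * zz k a) +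
        2 * ε * (h x + B) * h k| < 1 := by
    intro k
    by_cases hkx : k = x
    · exact Filter.Eventually.of_forall fun ε hne => absurd hkx hne
    · have hc : Continuous (fun ε : ℝ =>
          |(1 + ε * (-(h x) ^ 2 - 2 * B * h x)) / ((M : ℝ) + 1) * (∑ a, zz x a * zz k a) +
            2 * ε * (h x + B) * h k|) := by
        fun_prop
      have h0 : |(1 + 0 * (-(h x) ^ 2 - 2 * B * h x)) / ((M : ℝ) + 1) * (∑ a, zz x a * zz k a) +
            2 * 0 * (h x + B) * h k| < 1 := by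
        have h1 := zz_inner hkx
        have h2 : (1 + 0 * (-(h x) ^ 2 - 2 * B * h x)) / ((M : ℝ) + 1) * (∑ a, zz x a * zz k a) +
            2 * 0 * (h x + B) * h k = (∑ a, zz x a * zz k a) / ((M : ℝ) + 1) := by
          ring
        rw [h2, abs_div, abs_of_pos hM1, div_lt_one hM1]
        linarith
      have h3 : ∀ᶠ ε : ℝ in nhds 0,
          |(1 + ε * (-(h x) ^ 2 - 2 * B * h x)) / ((M : ℝ) + 1) * (∑ a, zz x a * zz k a) +
            2 * ε * (h x + B) * h k| < 1 := (hc.tendsto 0).eventually (gt_mem_nhds h0)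
      exact (h3.filter_mono nhdsWithin_le_nhds).mono fun ε hε _ => hε
  filter_upwards [Filter.eventually_all.mpr hk, self_mem_nhdsWithin] with ε h1 hε'
  have hε : 0 < ε := hε'
  have hD : ∀ k, 0 < 1 + ε * h k ^ 2 := fun k => by positivity
  obtain ⟨A, hA⟩ : ∃ A : ℝ, A = 1 + ε * (-(h x) ^ 2 - 2 * B * h x) := ⟨_, rfl⟩
  have hV : ∀ k, lf (fun a => A / ((M : ℝ) + 1) * zz x a) (2 * ε * (h x + B))
      (-(2 * ε * h x ^ 2 * B)) (zV h ε k) = (A / ((M : ℝ) + 1) * (∑ a, zz x a * zz k a) +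
        2 * ε * (h x + B) * h k) / (1 + ε * h k ^ 2) := by
    intro k
    rw [zV, map_smul, lf_apply]
    simp only [smul_eq_mul]
    rw [cs_sum]
    ring
  have hVx : lf (fun a => A / ((M : ℝ) + 1) * zz x a) (2 * ε * (h x + B))
      (-(2 * ε * h x ^ 2 * B)) (zV h ε x) = 1 := by
    rw [hV x, cs_self, div_mul_cancel₀ _ hM1.ne', div_eq_one_iff_eq (hD x).ne', hA]
    ring
  have hz : ∑ a : Fin (M + 1), A / ((M : ℝ) + 1) * zz x a * (0 : Fin (M + 1) → ℝ) a = 0 := by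
    simp
  refine ⟨lf (fun a => A / ((M : ℝ) + 1) * zz x a) (2 * ε * (h x + B))
      (-(2 * ε * h x ^ 2 * B)), hVx, ?_, ?_, ?_, ?_⟩
  · rw [zT, map_sub, map_smul, hVx, lf_apply]
    simp only [smul_eq_mul]
    rw [hz]
    ring
  · rw [zN, map_sub, map_smul, hVx, lf_apply]
    simp only [smul_eq_mul]
    rw [hz]
    ring
  · rw [lf_apply, cs_sum, cs_zB hM]
    simp [zB]
  · intro k hkx
    have h2 := h1 k hkx
    rw [← hA] at h2
    rw [hV k, abs_div, abs_of_pos (hD k), div_lt_one (hD k)]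
    have h3 : 0 ≤ ε * h k ^ 2 := by positivity
    linarith

end Pool.Agent.Lib.MP_a3b162_co.ES
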