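import Pool.Agent.Lib.MP_a3b162_co.ES.Defs

/-!
MODULE A6.  Cluster data under a linear isomorphism and a renumbering of the classes.

PROOF.  Compose the functionals with `L.symm`; `LinearIndependent.map'` with `ker L = ⊥` and
`L ∘ ![a, b, c, d] = ![L a, L b, L c, L d]` (`Matrix.comp_vecCons` or `funext; fin_cases`).
-/

set_option autoImplicit false

namespace Pool.Agent.Lib.MP_a3b162_co.ES

open Pool.Agent.Lib.MP_a3b162_co

private theorem Transport_ind {E F : Type*} [AddCommGroup E] [Module ℝ E] [AddCommGroup F]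
    [Module ℝ F] (L : E ≃ₗ[ℝ] F) {a b c d : E} (h : LinearIndependent ℝ ![a, b, c, d]) :
    LinearIndependent ℝ ![L a, L b, L c, L d] := by
  have h1 := h.map' (L : E →ₗ[ℝ] F) (LinearEquiv.ker L)
  have h2 : (L : E →ₗ[ℝ] F) ∘ ![a, b, c, d] = ![L a, L b, L c, L d] := by
    funext i
    fin_cases i <;> rfl
  rw [h2] at h1
  exact h1

theorem clu_transport {E F C D : Type*} [AddCommGroup E] [Module ℝ E] [AddCommGroup F] [Module ℝ F]
    {v t nn bb : C → E} (h : Clu v t nn bb) (L : E ≃ₗ[ℝ] F) (σ : D ≃ C) :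
    Clu (fun c : D => L (v (σ c))) (fun c => L (t (σ c))) (fun c => L (nn (σ c)))
      (fun c => L (bb (σ c))) := by
  refine ⟨?_, ?_, ?_, ?_⟩
  · intro c c' hc b
    obtain ⟨φ, h1, h2, h3, h4, h5, h6, h7⟩ := h.cross (σ c) (σ c') (σ.injective.ne hc) b
    refine ⟨φ ∘ₗ (L.symm : F →ₗ[ℝ] E), ?_, ?_, ?_, ?_, ?_, ?_, ?_⟩
    · simpa using h1
    · simpa using h2
    · simpa using h3
    · simpa using h4
    · simpa using h5
    · simpa using h6
    · intro k hk hk'
      simpa using h7 (σ k) (σ.injective.ne hk) (σ.injective.ne hk')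
  · intro c
    obtain ⟨χ, h1, h2, h3, h4, h5⟩ := h.same (σ c)
    refine ⟨χ ∘ₗ (L.symm : F →ₗ[ℝ] E), ?_, ?_, ?_, ?_, ?_⟩
    · simpa using h1
    · simpa using h2
    · simpa using h3
    · simpa using h4
    · intro k hk
      simpa using h5 (σ k) (σ.injective.ne hk)
  · intro c c' hc
    exact Transport_ind L (h.ind1 (σ c) (σ c') (σ.injective.ne hc))
  · intro c
    exact Transport_ind L (h.ind2 (σ c))

end Pool.Agent.Lib.MP_a3b162_co.ES
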