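import Pool.Agent.Lib.MP_a3b162_co.ES.Seq
import Pool.Agent.Lib.MP_a3b162_co.ES.ConfInd
import Pool.Agent.Lib.MP_a3b162_co.ES.ConfSame
import Pool.Agent.Lib.MP_a3b162_co.ES.ConfCross
import Pool.Agent.Lib.MP_a3b162_co.ES.Transport

/-!
MODULE B6.  The configuration with `2^(d-3)` classes in dimension `d`.

PROOF.  `M = d - 3 ≥ 1`, `h` from `exists_sep`, `B = 4 ∑ c, h c`, one `ε > 0` for all the finitely many
statements (`Filter.eventually_all`, `self_mem_nhdsWithin`, `Filter.Eventually.exists`).  `cross` for a pair with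
`y` dominating: the functional of the pair `(y, x)` times `sg b`.  Then `clu_transport` with
`Sp M ≃ₗ (Fin d → ℝ)` (`LinearEquiv.ofFinrankEq`, `finrank (Sp M) = M + 1 + 1 + 1 = d`) and
`Fin (2 ^ (d-3)) ≃ (Fin M → Bool)`.
-/

set_option autoImplicit false

namespace Pool.Agent.Lib.MP_a3b162_co.ES

open Pool.Agent.Lib.MP_a3b162_co

/-- the pair functional for both orders of the heights -/
private theorem b6_cross {M : ℕ} {h : (Fin M → Bool) → ℝ} {B ε : ℝ}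
    (H : ∀ x y : Fin M → Bool, ∀ b : Bool, x ≠ y → 8 * ((M : ℝ) + 1) * h y ≤ h x → ∃ φ : Sp M →ₗ[ℝ] ℝ,
      φ (zV h ε x) = 1 ∧ φ (zV h ε y) = sg b ∧ φ (zT h ε x) = 0 ∧ φ (zT h ε y) = 0 ∧
      φ (zN h B ε x) < 0 ∧ sg b * φ (zN h B ε y) < 0 ∧
      ∀ k, k ≠ x → k ≠ y → |φ (zV h ε k)| < 1) (hh : Sep h) {c c' : Fin M → Bool} (hne : c ≠ c') (b : Bool) :
    ∃ φ : Sp M →ₗ[ℝ] ℝ, φ (zV h ε c) = 1 ∧ φ (zV h ε c') = sg b ∧
      φ (zT h ε c) = 0 ∧ φ (zT h ε c') = 0 ∧ φ (zN h B ε c) < 0 ∧ sg b * φ (zN h B ε c') < 0 ∧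
      ∀ k, k ≠ c → k ≠ c' → |φ (zV h ε k)| < 1 := by
  rcases hh.2 c c' hne with h1 | h1
  · obtain ⟨φ, h2, h3, h4, h5, h6, h7, h8⟩ := H c' c b (Ne.symm hne) h1
    have hs := sg_mul_self b
    refine ⟨sg b • φ, ?_, ?_, ?_, ?_, ?_, ?_, ?_⟩
    · rw [LinearMap.smul_apply, h3, smul_eq_mul, hs]
    · rw [LinearMap.smul_apply, h2, smul_eq_mul, mul_one]
    · rw [LinearMap.smul_apply, h5, smul_zero]
    · rw [LinearMap.smul_apply, h4, smul_zero]
    · rw [LinearMap.smul_apply, smul_eq_mul]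
      exact h7
    · rw [LinearMap.smul_apply, smul_eq_mul, ← mul_assoc, hs, one_mul]
      exact h6
    · intro k hk hk'
      rw [LinearMap.smul_apply, smul_eq_mul, abs_mul]
      have h9 : |sg b| = 1 := by cases b <;> simp
      rw [h9, one_mul]
      exact h8 k hk' hk
  · exact H c c' b hne h1

theorem conf {d : ℕ} (hd : 4 ≤ d) :
    ∃ v t nn bb : Fin (2 ^ (d - 3)) → (Fin d → ℝ), Clu v t nn bb := by
  obtain ⟨M, rfl⟩ : ∃ M, d = M + 3 := ⟨d - 3, by omega⟩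
  have hM : 1 ≤ M := by omega
  rw [Nat.add_sub_cancel]
  obtain ⟨h, hh⟩ := exists_sep M
  set B : ℝ := 4 * ∑ c, h c with hBdef
  have hB : ∀ c, 4 * h c ≤ B := by
    intro c
    rw [hBdef]
    have : h c ≤ ∑ c, h c := Finset.single_le_sum (f := h) (fun i _ => (hh.1 i).le) (Finset.mem_univ c)
    linarith
  have e1 : ∀ᶠ ε : ℝ in nhdsWithin 0 (Set.Ioi 0), ∀ x y : Fin M → Bool, ∀ b : Bool, x ≠ y →
      8 * ((M : ℝ) + 1) * h y ≤ h x → ∃ φ : Sp M →ₗ[ℝ] ℝ,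
      φ (zV h ε x) = 1 ∧ φ (zV h ε y) = sg b ∧ φ (zT h ε x) = 0 ∧ φ (zT h ε y) = 0 ∧
      φ (zN h B ε x) < 0 ∧ sg b * φ (zN h B ε y) < 0 ∧
      ∀ k, k ≠ x → k ≠ y → |φ (zV h ε k)| < 1 := by
    rw [Filter.eventually_all]
    intro x
    rw [Filter.eventually_all]
    intro y
    rw [Filter.eventually_all]
    intro b
    rw [Filter.eventually_imp_distrib_left]
    intro hne
    rw [Filter.eventually_imp_distrib_left]
    intro hxy
    exact conf_cross hh hB hne hxy b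
  have e2 : ∀ᶠ ε : ℝ in nhdsWithin 0 (Set.Ioi 0), ∀ x : Fin M → Bool, ∃ χ : Sp M →ₗ[ℝ] ℝ,
      χ (zV h ε x) = 1 ∧ χ (zT h ε x) = 0 ∧ χ (zN h B ε x) = 0 ∧ χ (zB x) = 0 ∧
      ∀ k, k ≠ x → |χ (zV h ε k)| < 1 := by
    rw [Filter.eventually_all]
    exact fun x => conf_same hM hh B x
  have e3 : ∀ᶠ ε : ℝ in nhdsWithin 0 (Set.Ioi 0), 0 < ε := self_mem_nhdsWithin
  obtain ⟨ε, ⟨h1, h2⟩, hε⟩ := ((e1.and e2).and e3).exists
  have hclu : Clu (zV h ε) (zT h ε) (zN h B ε) (zB (M := M)) :=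
    { cross := fun c c' hne b => b6_cross h1 hh hne b
      same := h2
      ind1 := fun c c' hne => conf_ind1 hh hε hne
      ind2 := fun c => conf_ind2 hM hε c }
  have L : Sp M ≃ₗ[ℝ] (Fin (M + 3) → ℝ) := by
    refine LinearEquiv.ofFinrankEq _ _ ?_
    rw [Module.finrank_prod, Module.finrank_prod, Module.finrank_fin_fun, Module.finrank_self,
      Module.finrank_fin_fun]
  have σ : Fin (2 ^ M) ≃ (Fin M → Bool) :=
    Fintype.equivOfCardEq (by rw [Fintype.card_fin, Fintype.card_fun, Fintype.card_bool, Fintype.card_fin])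
  exact ⟨_, _, _, _, clu_transport hclu L σ⟩

end Pool.Agent.Lib.MP_a3b162_co.ES
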