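import Pool.Agent.Lib.MP_a3b162_co.NG.Basic
import Pool.Agent.Lib.MP_a3b162_co.Lower

/-!
MODULE A5.  Counting.

PROOF.  `EE w` is the number of `(i, j, b)` with `i < j` and `Pres w i j b`; it is at least
`#{i < j} + #{i < j, i % r ≠ j % r} = n (n - 1) - t`, `t = #{i < j, i % r = j % r}`.  Write `n = q r + s`,
`s < r`: `s` classes have `q + 1` elements and `r - s` have `q`, so
`2 t = s (q+1)^2 + (r - s) q^2 - n = r q^2 + 2 s q + s - n` and `n^2 / r = r q^2 + 2 s q + s^2 / r`,
hence `2 t ≤ n^2 / r + s (r - s) / r - n ≤ n^2 / r + r / 4 - n`.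
(Only the upper bound for `2t + n = #{(i, j), i % r = j % r} = ∑ i, #{j, j % r = i % r}` is needed: for each
`i` the number of `j < n` with `j % r = i % r` is `q + 1` if `i % r < s`, `q` otherwise
(`Nat.count_modEq_card`), and the number of `i` with `i % r < s` is `s (q + 1)`.)
-/

set_option autoImplicit false

namespace Pool.Agent.Lib.MP_a3b162_co.ES

open Pool.Agent.Lib.MP_a3b162_co

/-- the size of a residue class -/
private theorem a5_class (n r a : ℕ) (hr : 0 < r) (ha : a < r) :
    (Finset.univ.filter (fun i : Fin n => i.val % r = a)).card =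
      n / r + if a < n % r then 1 else 0 := by
  classical
  have h1 := Nat.count_modEq_card n hr a
  rw [Nat.mod_eq_of_lt ha] at h1
  rw [← h1, Nat.count_eq_card_filter_range]
  refine Finset.card_bij (fun i _ => i.val) ?_ ?_ ?_
  · intro i hi
    simp only [Finset.mem_filter, Finset.mem_univ, true_and] at hi
    simp only [Finset.mem_filter, Finset.mem_range, i.isLt, true_and]
    rw [Nat.ModEq, hi, Nat.mod_eq_of_lt ha]
  · intro i _ j _ hij
    exact Fin.ext hij
  · intro b hb
    simp only [Finset.mem_filter, Finset.mem_range] at hb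
    refine ⟨⟨b, hb.1⟩, ?_, rfl⟩
    simp only [Finset.mem_filter, Finset.mem_univ, true_and]
    have := hb.2
    rwa [Nat.ModEq, Nat.mod_eq_of_lt ha] at this

/-- the number of pairs in the same residue class -/
private theorem a5_same (n r : ℕ) (hr : 0 < r) :
    (Finset.univ.filter (fun p : Fin n × Fin n => p.1.val % r = p.2.val % r)).card =
      r * (n / r) ^ 2 + 2 * (n / r) * (n % r) + n % r := by
  classical
  have h1 : (Finset.univ.filter (fun p : Fin n × Fin n => p.1.val % r = p.2.val % r)).card =
      ∑ a ∈ Finset.range r, ((Finset.univ.filter (fun p : Fin n × Fin n =>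
        p.1.val % r = p.2.val % r)).filter (fun p => p.1.val % r = a)).card := by
    refine Finset.card_eq_sum_card_fiberwise ?_
    intro p _
    simp only [Finset.coe_range, Set.mem_Iio]
    exact Nat.mod_lt _ hr
  rw [h1]
  have h2 : ∀ a ∈ Finset.range r, ((Finset.univ.filter (fun p : Fin n × Fin n =>
        p.1.val % r = p.2.val % r)).filter (fun p => p.1.val % r = a)).card =
      (n / r) ^ 2 + if a < n % r then 2 * (n / r) + 1 else 0 := by
    intro a ha
    rw [Finset.mem_range] at ha
    have h3 : ((Finset.univ.filter (fun p : Fin n × Fin n =>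
        p.1.val % r = p.2.val % r)).filter (fun p => p.1.val % r = a)) =
        (Finset.univ.filter (fun i : Fin n => i.val % r = a)) ×ˢ
        (Finset.univ.filter (fun i : Fin n => i.val % r = a)) := by
      ext ⟨i, j⟩
      simp only [Finset.mem_filter, Finset.mem_univ, true_and, Finset.mem_product]
      constructor
      · rintro ⟨h, h'⟩
        exact ⟨h', h ▸ h'⟩
      · rintro ⟨h, h'⟩
        exact ⟨h.trans h'.symm, h⟩
    rw [h3, Finset.card_product, a5_class n r a hr ha]
    split_ifs <;> ring
  rw [Finset.sum_congr rfl h2, Finset.sum_add_distrib, Finset.sum_const, Finset.card_range,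
    smul_eq_mul, Finset.sum_ite, Finset.sum_const_zero, add_zero, Finset.sum_const, smul_eq_mul]
  have h4 : ((Finset.range r).filter (fun a => a < n % r)).card = n % r := by
    have h5 : (Finset.range r).filter (fun a => a < n % r) = Finset.range (n % r) := by
      ext a
      simp only [Finset.mem_filter, Finset.mem_range]
      have := Nat.mod_lt n hr
      omega
    rw [h5, Finset.card_range]
  rw [h4]
  ring

/-- the number of pairs `i < j` in different classes -/
private theorem a5_diff (n r : ℕ) :
    n * n ≤ 2 * (Finset.univ.filter (fun p : Fin n × Fin n => p.1 < p.2 ∧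
      p.1.val % r ≠ p.2.val % r)).card +
      (Finset.univ.filter (fun p : Fin n × Fin n => p.1.val % r = p.2.val % r)).card := by
  classical
  set B := Finset.univ.filter (fun p : Fin n × Fin n => p.1 < p.2 ∧
      p.1.val % r ≠ p.2.val % r) with hB
  set D := Finset.univ.filter (fun p : Fin n × Fin n => p.1.val % r = p.2.val % r) with hD
  have h1 : (Finset.univ : Finset (Fin n × Fin n)) ⊆ B ∪ B.image Prod.swap ∪ D := by
    rintro ⟨i, j⟩ -
    by_cases h : i.val % r = j.val % r
    · refine Finset.mem_union_right _ ?_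
      rw [hD]
      simp [h]
    · refine Finset.mem_union_left _ ?_
      rcases lt_trichotomy i j with h' | h' | h'
      · refine Finset.mem_union_left _ ?_
        rw [hB]
        simp [h, h']
      · exact absurd (by rw [h']) h
      · refine Finset.mem_union_right _ ?_
        rw [Finset.mem_image]
        refine ⟨(j, i), ?_, rfl⟩
        rw [hB]
        simp only [Finset.mem_filter, Finset.mem_univ, true_and]
        exact ⟨h', fun h'' => h h''.symm⟩
  have h2 := Finset.card_le_card h1
  have h3 : (Finset.univ : Finset (Fin n × Fin n)).card = n * n := by simp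
  have h4 := Finset.card_union_le (B ∪ B.image Prod.swap) D
  have h5 := Finset.card_union_le B (B.image Prod.swap)
  have h6 : (B.image Prod.swap).card ≤ B.card := Finset.card_image_le
  omega

/-- two families of edges -/
private theorem a5_edges {d n r : ℕ} (w : Fin n → (Fin d → ℝ))
    (h : ∀ i j : Fin n, i ≠ j →
      Pres w i j true ∧ (i.val % r ≠ j.val % r → Pres w i j false)) :
    (Finset.univ.filter (fun p : Fin n × Fin n => p.1 < p.2)).card +
      (Finset.univ.filter (fun p : Fin n × Fin n => p.1 < p.2 ∧
      p.1.val % r ≠ p.2.val % r)).card ≤ NG.EE w := by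
  classical
  set A := Finset.univ.filter (fun p : Fin n × Fin n => p.1 < p.2) with hA
  set B := Finset.univ.filter (fun p : Fin n × Fin n => p.1 < p.2 ∧
      p.1.val % r ≠ p.2.val % r) with hB
  have hf : ∀ b : Bool, Function.Injective (fun p : Fin n × Fin n => (p.1, p.2, b)) := by
    intro b p q hpq
    simp only [Prod.mk.injEq, and_true] at hpq
    exact Prod.ext hpq.1 hpq.2
  have h1 : Disjoint (A.image (fun p => (p.1, p.2, true))) (B.image (fun p => (p.1, p.2, false))) := by
    rw [Finset.disjoint_left]
    intro t ht ht'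
    rw [Finset.mem_image] at ht ht'
    obtain ⟨p, -, hp⟩ := ht
    obtain ⟨q, -, hq⟩ := ht'
    rw [← hq] at hp
    simp at hp
  have h2 : (A.image (fun p => (p.1, p.2, true)) ∪ B.image (fun p => (p.1, p.2, false))).card =
      A.card + B.card := by
    rw [Finset.card_union_of_disjoint h1, Finset.card_image_of_injective _ (hf true),
      Finset.card_image_of_injective _ (hf false)]
  rw [← h2, ← Set.ncard_coe_finset]
  unfold NG.EE
  refine Set.ncard_le_ncard ?_ (Set.toFinite _)
  intro t ht
  simp only [Finset.coe_union, Finset.coe_image, Set.mem_union, Set.mem_image, Finset.mem_coe] at ht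
  rcases ht with ⟨p, hp, rfl⟩ | ⟨p, hp, rfl⟩
  · rw [hA] at hp
    simp only [Finset.mem_filter, Finset.mem_univ, true_and] at hp
    exact ⟨hp, (h _ _ hp.ne).1⟩
  · rw [hB] at hp
    simp only [Finset.mem_filter, Finset.mem_univ, true_and] at hp
    exact ⟨hp.1, (h _ _ hp.1.ne).2 hp.2⟩

theorem count_edges {d n r : ℕ} (hr : 1 ≤ r) (w : Fin n → (Fin d → ℝ))
    (h : ∀ i j : Fin n, i ≠ j →
      Pres w i j true ∧ (i.val % r ≠ j.val % r → Pres w i j false)) :
    (2 - 1 / (r : ℝ)) * (n : ℝ) ^ 2 - n - r / 4 ≤ 2 * (NG.EE w : ℝ) := by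
  have h1 := a5_edges w h
  have h2 := a5_diff n r
  have h3 := lower_pairs n
  have h4 := a5_same n r hr
  have h5 : n = r * (n / r) + n % r := (Nat.div_add_mod n r).symm
  generalize n / r = q at *
  generalize n % r = s at *
  rw [h4] at h2
  generalize (Finset.univ.filter (fun p : Fin n × Fin n => p.1 < p.2)).card = a at *
  generalize (Finset.univ.filter (fun p : Fin n × Fin n => p.1 < p.2 ∧
      p.1.val % r ≠ p.2.val % r)).card = b at *
  generalize NG.EE w = e at *
  have h1' : (a : ℝ) + b ≤ e := by exact_mod_cast h1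
  have h2' : (n : ℝ) * n ≤ 2 * b + (r * q ^ 2 + 2 * q * s + s) := by exact_mod_cast h2
  have h3' : (n : ℝ) * n ≤ 2 * a + n := by exact_mod_cast h3
  have h5' : (n : ℝ) = r * q + s := by exact_mod_cast h5
  have hr' : (0 : ℝ) < r := by exact_mod_cast hr
  have h6 : (n : ℝ) ^ 2 / r + r / 4 - (r * q ^ 2 + 2 * q * s + s) = (2 * s - r) ^ 2 / (4 * r) := by
    rw [h5']
    field_simp
    ring
  have h7 : 0 ≤ (2 * (s : ℝ) - r) ^ 2 / (4 * r) := by positivity
  have h8 : (2 - 1 / (r : ℝ)) * (n : ℝ) ^ 2 = 2 * (n * n) - n ^ 2 / r := by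
    field_simp
  rw [h8]
  nlinarith

end Pool.Agent.Lib.MP_a3b162_co.ES
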