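import Mathlib

/-!
MODULE A1.  A linear functional can be adjusted to prescribed values at vectors near independent ones.

PROOF.  Take functionals `g j` with `g j (e i) = if i = j then 1 else 0` (`he` extends to a basis, or
`LinearIndependent` -> a left inverse of `Finsupp`/`Fin m → ℝ` map; e.g. `LinearMap.exists_leftInverse_of_injective`
applied to `c ↦ ∑ c i • e i`).  `M p = Matrix.of (fun i j => g j (p.1 i))`, `w p i = p.2 i - φ₀ (p.1 i)`,
`Φ p.1 p.2 = φ₀ + ∑ j, ((M p)⁻¹ *ᵥ w p) j • g j`.  `M (e, _) = 1`, so `det (M p) ≠ 0` near the point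
and there `Φ (p.1 i) = φ₀ (p.1 i) + (M (M⁻¹ w)) i = p.2 i`.  At the point itself `w = 0`.  Continuity: the
entries are continuous (`g j`, `φ₀` are continuous linear maps in finite dimension:
`LinearMap.continuous_of_finiteDimensional`), `M⁻¹ = (det M)⁻¹ • adjugate M` (`Matrix.inv_def`,
`Ring.inverse_eq_inv'`), `ContinuousAt.inv₀`.
-/

set_option autoImplicit false

namespace Pool.Agent.Lib.MP_a3b162_co.ES

/-- the matrix of the values -/
private noncomputable def fnM {d m : ℕ} (g : Fin m → ((Fin d → ℝ) →ₗ[ℝ] ℝ))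
    (p : Fin m → (Fin d → ℝ)) : Matrix (Fin m) (Fin m) ℝ := Matrix.of fun i j => g j (p i)

private noncomputable def fnV {d m : ℕ} (g : Fin m → ((Fin d → ℝ) →ₗ[ℝ] ℝ))
    (φ₀ : (Fin d → ℝ) →ₗ[ℝ] ℝ) (p : Fin m → (Fin d → ℝ)) (y : Fin m → ℝ) : Fin m → ℝ :=
  ((fnM g p).det)⁻¹ • Matrix.mulVec (fnM g p).adjugate (fun i => y i - φ₀ (p i))

private theorem fn_dual {d m : ℕ} (e : Fin m → (Fin d → ℝ)) (he : LinearIndependent ℝ e) :
    ∃ g : Fin m → ((Fin d → ℝ) →ₗ[ℝ] ℝ), ∀ i j, g j (e i) = if i = j then 1 else 0 := by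
  have hinj : Function.Injective (Fintype.linearCombination ℝ e) :=
    linearIndependent_iff_injective_fintypeLinearCombination.1 he
  obtain ⟨L, hL⟩ := LinearMap.exists_leftInverse_of_injective (Fintype.linearCombination ℝ e)
    (LinearMap.ker_eq_bot.2 hinj)
  refine ⟨fun j => (LinearMap.proj j).comp L, fun i j => ?_⟩
  have h1 : Fintype.linearCombination ℝ e (Pi.single i 1) = e i := by
    rw [Fintype.linearCombination_apply_single, one_smul]
  have h2 : L (e i) = Pi.single i 1 := by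
    rw [← h1]
    exact LinearMap.congr_fun hL (Pi.single i 1)
  rw [LinearMap.comp_apply, h2, LinearMap.proj_apply, Pi.single_apply]
  by_cases h : i = j
  · rw [if_pos h, if_pos h.symm]
  · rw [if_neg h, if_neg (fun h' => h h'.symm)]

theorem fun_near {d m : ℕ} (e : Fin m → (Fin d → ℝ)) (he : LinearIndependent ℝ e)
    (φ₀ : (Fin d → ℝ) →ₗ[ℝ] ℝ) :
    ∃ Φ : (Fin m → (Fin d → ℝ)) → (Fin m → ℝ) → ((Fin d → ℝ) →ₗ[ℝ] ℝ),
      (∀ᶠ p : (Fin m → (Fin d → ℝ)) × (Fin m → ℝ) in nhds (e, fun i => φ₀ (e i)),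
        ∀ i, Φ p.1 p.2 (p.1 i) = p.2 i) ∧
      Φ e (fun i => φ₀ (e i)) = φ₀ ∧
      ∀ x : Fin d → ℝ,
        ContinuousAt (fun q : ((Fin m → (Fin d → ℝ)) × (Fin m → ℝ)) × (Fin d → ℝ) =>
          Φ q.1.1 q.1.2 q.2) ((e, fun i => φ₀ (e i)), x) := by
  obtain ⟨g, hg⟩ := fn_dual e he
  have hgc : ∀ j, Continuous (g j) := fun j => LinearMap.continuous_of_finiteDimensional _
  have hφc : Continuous φ₀ := LinearMap.continuous_of_finiteDimensional _
  have hM1 : fnM g e = 1 := by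
    ext i j
    rw [fnM, Matrix.of_apply, hg, Matrix.one_apply]
  have hMc : Continuous (fnM g) := by
    refine continuous_matrix fun i j => ?_
    exact (hgc j).comp (continuous_apply i)
  have hdc : Continuous fun p : Fin m → (Fin d → ℝ) => (fnM g p).det := hMc.matrix_det
  refine ⟨fun p y => φ₀ + ∑ j, fnV g φ₀ p y j • g j, ?_, ?_, fun x => ?_⟩
  · have h1 : ∀ᶠ p : (Fin m → (Fin d → ℝ)) × (Fin m → ℝ) in nhds (e, fun i => φ₀ (e i)),
        (fnM g p.1).det ≠ 0 := by
      refine (hdc.comp continuous_fst).continuousAt.eventually_ne ?_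
      show (fnM g e).det ≠ 0
      rw [hM1, Matrix.det_one]
      exact one_ne_zero
    filter_upwards [h1] with p hp i
    have h2 : Matrix.mulVec (fnM g p.1) (fnV g φ₀ p.1 p.2) = fun i => p.2 i - φ₀ (p.1 i) := by
      rw [fnV, Matrix.mulVec_smul, Matrix.mulVec_mulVec, Matrix.mul_adjugate, Matrix.smul_mulVec,
        Matrix.one_mulVec, smul_smul, inv_mul_cancel₀ hp, one_smul]
    have h3 := congrFun h2 i
    have h4 : Matrix.mulVec (fnM g p.1) (fnV g φ₀ p.1 p.2) i =
        ∑ j, fnV g φ₀ p.1 p.2 j * g j (p.1 i) := by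
      rw [Matrix.mulVec, dotProduct]
      refine Finset.sum_congr rfl fun j _ => ?_
      rw [fnM, Matrix.of_apply, mul_comm]
    have h5 : (φ₀ + ∑ j, fnV g φ₀ p.1 p.2 j • g j) (p.1 i) =
        φ₀ (p.1 i) + ∑ j, fnV g φ₀ p.1 p.2 j * g j (p.1 i) := by
      rw [LinearMap.add_apply, LinearMap.sum_apply]
      rfl
    rw [h5, ← h4, h3]
    ring
  · have h1 : fnV g φ₀ e (fun i => φ₀ (e i)) = 0 := by
      have h2 : (fun i => φ₀ (e i) - φ₀ (e i)) = (0 : Fin m → ℝ) := by
        funext i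
        exact sub_self _
      rw [fnV, h2, Matrix.mulVec_zero, smul_zero]
    show φ₀ + ∑ j, fnV g φ₀ e (fun i => φ₀ (e i)) j • g j = φ₀
    rw [h1]
    simp
  · have h5 : (fun q : ((Fin m → (Fin d → ℝ)) × (Fin m → ℝ)) × (Fin d → ℝ) =>
        (φ₀ + ∑ j, fnV g φ₀ q.1.1 q.1.2 j • g j) q.2) =
        fun q => φ₀ q.2 + ∑ j, fnV g φ₀ q.1.1 q.1.2 j * g j q.2 := by
      funext q
      rw [LinearMap.add_apply, LinearMap.sum_apply]
      rfl
    show ContinuousAt (fun q : ((Fin m → (Fin d → ℝ)) × (Fin m → ℝ)) × (Fin d → ℝ) =>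
        (φ₀ + ∑ j, fnV g φ₀ q.1.1 q.1.2 j • g j) q.2) _
    rw [h5]
    have hp : Continuous fun q : ((Fin m → (Fin d → ℝ)) × (Fin m → ℝ)) × (Fin d → ℝ) => q.1.1 :=
      continuous_fst.comp continuous_fst
    have hy : Continuous fun q : ((Fin m → (Fin d → ℝ)) × (Fin m → ℝ)) × (Fin d → ℝ) => q.1.2 :=
      continuous_snd.comp continuous_fst
    have hV : ContinuousAt (fun q : ((Fin m → (Fin d → ℝ)) × (Fin m → ℝ)) × (Fin d → ℝ) =>
        fnV g φ₀ q.1.1 q.1.2) ((e, fun i => φ₀ (e i)), x) := by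
      have h6 : ContinuousAt (fun q : ((Fin m → (Fin d → ℝ)) × (Fin m → ℝ)) × (Fin d → ℝ) =>
          ((fnM g q.1.1).det)⁻¹) ((e, fun i => φ₀ (e i)), x) := by
        refine ContinuousAt.inv₀ (hdc.comp hp).continuousAt ?_
        show (fnM g e).det ≠ 0
        rw [hM1, Matrix.det_one]
        exact one_ne_zero
      have h7 : Continuous (fun q : ((Fin m → (Fin d → ℝ)) × (Fin m → ℝ)) × (Fin d → ℝ) =>
          Matrix.mulVec (fnM g q.1.1).adjugate (fun i => q.1.2 i - φ₀ (q.1.1 i))) := by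
        refine Continuous.matrix_mulVec (hMc.comp hp).matrix_adjugate ?_
        refine continuous_pi fun i => ?_
        exact ((continuous_apply i).comp hy).sub (hφc.comp ((continuous_apply i).comp hp))
      exact h6.smul h7.continuousAt
    refine ContinuousAt.add (hφc.comp continuous_snd).continuousAt ?_
    refine tendsto_finsetSum _ fun j _ => ?_
    exact ContinuousAt.mul ((continuous_apply j).continuousAt.comp hV)
      ((hgc j).comp continuous_snd).continuousAt

end Pool.Agent.Lib.MP_a3b162_co.ES
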