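import Pool.Agent.Lib.MP_a3b162_co.ES.Defs
import Pool.Agent.Lib.MP_a3b162_co.ES.FunNear

/-!
MODULE A2.  Pairs of points of two different clusters.

PROOF.  `φ₀` from `h.cross c c' hc b`, `e = ![v c, t c, v c', t c']` (independent by `h.ind1`), `Φ` from
`fun_near`; `φ₀ (e i) = ![1, 0, sg b, 0] i`.  For `(s₀, u₀)` put
`φ = Φ ![gam c s₀, gam' c s₀, gam c' u₀, gam' c' u₀] ![1, 0, sg b, 0]`; as `(s₀, u₀) → 0` the arguments tend
to the base point (`gam_zero`, `gam'_zero`), so eventually `φ` has the four prescribed values.  By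
`gam_taylor`, `φ (gam c s) = 1 + (s - s₀)^2 φ (gam2 c s s₀)`, and `φ (gam2 c s s₀) → φ₀ (nn c) < 0`,
`φ (gam c s) → φ₀ (v c) = 1 > -1` as `(s₀, u₀, s) → 0`.  The same for `c'` with `sg b * φ`.  For the other
`k`: `φ (gam k s) → φ₀ (v k)`, `|φ₀ (v k)| < 1`; finitely many `k`.  All statements hold eventually in
`nhds (0, 0, 0)` of `ℝ × ℝ × ℝ`; take a cube of side `ρ` (`Metric.eventually_nhds_iff`, sup metric).
-/

set_option autoImplicit false

namespace Pool.Agent.Lib.MP_a3b162_co.ES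

open Pool.Agent.Lib.MP_a3b162_co

private theorem cross_gam {d : ℕ} {C : Type*} (v t nn bb : C → (Fin d → ℝ)) (c : C) :
    Continuous (gam v t nn bb c) := by
  unfold gam
  fun_prop

private theorem cross_gam' {d : ℕ} {C : Type*} (v t nn bb : C → (Fin d → ℝ)) (c : C) :
    Continuous (gam' v t nn bb c) := by
  unfold gam'
  fun_prop

private theorem cross_gam2 {d : ℕ} {C : Type*} (v nn bb : C → (Fin d → ℝ)) (c : C) :
    Continuous (fun z : ℝ × ℝ => gam2 v nn bb c z.1 z.2) := by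
  unfold gam2
  fun_prop

private theorem cross_sg (b : Bool) : sg b * sg b = 1 := by
  cases b <;> simp [sg]

private theorem cross_cont {d : ℕ} {Φ : (Fin 4 → (Fin d → ℝ)) → (Fin 4 → ℝ) → ((Fin d → ℝ) →ₗ[ℝ] ℝ)}
    {e : Fin 4 → (Fin d → ℝ)} {y₀ : Fin 4 → ℝ}
    (hΦ : ∀ x : Fin d → ℝ,
        ContinuousAt (fun q : ((Fin 4 → (Fin d → ℝ)) × (Fin 4 → ℝ)) × (Fin d → ℝ) =>
          Φ q.1.1 q.1.2 q.2) ((e, y₀), x))
    {P : ℝ × ℝ × ℝ → (Fin 4 → (Fin d → ℝ)) × (Fin 4 → ℝ)} (hP : Continuous P)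
    (hP0 : P 0 = (e, y₀)) {x : ℝ × ℝ × ℝ → (Fin d → ℝ)} (hx : Continuous x) :
    ContinuousAt (fun z => Φ (P z).1 (P z).2 (x z)) 0 := by
  have h1 : ContinuousAt (fun q : ((Fin 4 → (Fin d → ℝ)) × (Fin 4 → ℝ)) × (Fin d → ℝ) =>
      Φ q.1.1 q.1.2 q.2) ((fun z : ℝ × ℝ × ℝ => (P z, x z)) 0) := by
    have := hΦ (x 0)
    rw [← hP0] at this
    exact this
  have h2 : ContinuousAt (fun z : ℝ × ℝ × ℝ => (P z, x z)) 0 := (hP.prodMk hx).continuousAt
  exact ContinuousAt.comp (f := fun z : ℝ × ℝ × ℝ => (P z, x z)) h1 h2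

theorem cross_near {d : ℕ} {C : Type*} [Finite C] {v t nn bb : C → (Fin d → ℝ)}
    (h : Clu v t nn bb) {c c' : C} (hc : c ≠ c') (b : Bool) :
    ∃ ρ : ℝ, 0 < ρ ∧ ∀ s₀ u₀ : ℝ, |s₀| ≤ ρ → |u₀| ≤ ρ → ∃ φ : (Fin d → ℝ) →ₗ[ℝ] ℝ,
      φ (gam v t nn bb c s₀) = 1 ∧ φ (gam v t nn bb c' u₀) = sg b ∧
      (∀ s, |s| ≤ ρ → s ≠ s₀ → |φ (gam v t nn bb c s)| < 1) ∧
      (∀ s, |s| ≤ ρ → s ≠ u₀ → |φ (gam v t nn bb c' s)| < 1) ∧
      ∀ k, k ≠ c → k ≠ c' → ∀ s, |s| ≤ ρ → |φ (gam v t nn bb k s)| < 1 := by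
  obtain ⟨φ₀, h1, h2, h3, h4, h5, h6, h7⟩ := h.cross c c' hc b
  obtain ⟨Φ, hΦ1, hΦ2, hΦ3⟩ := fun_near ![v c, t c, v c', t c'] (h.ind1 c c' hc) φ₀
  have hy : (fun i => φ₀ ((![v c, t c, v c', t c'] : Fin 4 → (Fin d → ℝ)) i)) = ![1, 0, sg b, 0] := by
    funext i
    fin_cases i
    · exact h1
    · exact h3
    · exact h2
    · exact h4
  rw [hy] at hΦ1 hΦ2 hΦ3
  set P : ℝ × ℝ × ℝ → (Fin 4 → (Fin d → ℝ)) × (Fin 4 → ℝ) := fun z =>
    (![gam v t nn bb c z.1, gam' v t nn bb c z.1, gam v t nn bb c' z.2.1,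
      gam' v t nn bb c' z.2.1], ![1, 0, sg b, 0]) with hP
  have hg := cross_gam v t nn bb
  have hg' := cross_gam' v t nn bb
  have hPc : Continuous P := by
    refine Continuous.prodMk ?_ continuous_const
    refine continuous_pi fun i => ?_
    fin_cases i
    · exact (hg c).comp continuous_fst
    · exact (hg' c).comp continuous_fst
    · exact (hg c').comp (continuous_fst.comp continuous_snd)
    · exact (hg' c').comp (continuous_fst.comp continuous_snd)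
  have hP0 : P 0 = (![v c, t c, v c', t c'], ![1, 0, sg b, 0]) := by
    simp [hP]
  have hcont : ∀ x : ℝ × ℝ × ℝ → (Fin d → ℝ), Continuous x →
      Filter.Tendsto (fun z => Φ (P z).1 (P z).2 (x z)) (nhds 0) (nhds (φ₀ (x 0))) := by
    intro x hx
    have := (cross_cont hΦ3 hPc hP0 hx).tendsto
    rwa [hP0, hΦ2] at this
  have eA : ∀ᶠ z : ℝ × ℝ × ℝ in nhds 0, ∀ i, Φ (P z).1 (P z).2 ((P z).1 i) = (P z).2 i := by
    have h8 : Filter.Tendsto P (nhds 0) (nhds (![v c, t c, v c', t c'], ![1, 0, sg b, 0])) := by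
      rw [← hP0]
      exact hPc.tendsto 0
    exact h8.eventually hΦ1
  have eB : ∀ᶠ z : ℝ × ℝ × ℝ in nhds 0, Φ (P z).1 (P z).2 (gam2 v nn bb c z.2.2 z.1) < 0 := by
    have h8 := hcont (fun z => gam2 v nn bb c z.2.2 z.1)
      ((cross_gam2 v nn bb c).comp ((continuous_snd.comp continuous_snd).prodMk continuous_fst))
    refine h8.eventually (gt_mem_nhds ?_)
    simpa using h5
  have eC : ∀ᶠ z : ℝ × ℝ × ℝ in nhds 0, -1 < Φ (P z).1 (P z).2 (gam v t nn bb c z.2.2) := by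
    have h8 := hcont (fun z => gam v t nn bb c z.2.2)
      ((hg c).comp (continuous_snd.comp continuous_snd))
    refine h8.eventually (lt_mem_nhds ?_)
    simp [h1]
  have eD : ∀ᶠ z : ℝ × ℝ × ℝ in nhds 0,
      sg b * Φ (P z).1 (P z).2 (gam2 v nn bb c' z.2.2 z.2.1) < 0 := by
    have h8 := (hcont (fun z => gam2 v nn bb c' z.2.2 z.2.1)
      ((cross_gam2 v nn bb c').comp ((continuous_snd.comp continuous_snd).prodMk
        (continuous_fst.comp continuous_snd)))).const_mul (sg b)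
    refine h8.eventually (gt_mem_nhds ?_)
    simpa using h6
  have eE : ∀ᶠ z : ℝ × ℝ × ℝ in nhds 0, -1 < sg b * Φ (P z).1 (P z).2 (gam v t nn bb c' z.2.2) := by
    have h8 := (hcont (fun z => gam v t nn bb c' z.2.2)
      ((hg c').comp (continuous_snd.comp continuous_snd))).const_mul (sg b)
    refine h8.eventually (lt_mem_nhds ?_)
    have h9 := cross_sg b
    simp only [Prod.snd_zero, gam_zero, h2, h9]
    norm_num
  have eF : ∀ᶠ z : ℝ × ℝ × ℝ in nhds 0, ∀ k, k ≠ c → k ≠ c' →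
      |Φ (P z).1 (P z).2 (gam v t nn bb k z.2.2)| < 1 := by
    rw [Filter.eventually_all]
    intro k
    by_cases hk : k ≠ c ∧ k ≠ c'
    · have h8 := (hcont (fun z => gam v t nn bb k z.2.2)
        ((hg k).comp (continuous_snd.comp continuous_snd))).abs
      have h9 : ∀ᶠ z : ℝ × ℝ × ℝ in nhds 0, |Φ (P z).1 (P z).2 (gam v t nn bb k z.2.2)| < 1 := by
        refine h8.eventually (gt_mem_nhds ?_)
        simpa using h7 k hk.1 hk.2
      filter_upwards [h9] with z hz _ _ using hz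
    · refine Filter.Eventually.of_forall fun z hk1 hk2 => absurd ⟨hk1, hk2⟩ hk
  obtain ⟨ε, hε, hall⟩ := Metric.eventually_nhds_iff.1
    (eA.and (eB.and (eC.and (eD.and (eE.and eF)))))
  refine ⟨ε / 2, by positivity, fun s₀ u₀ hs₀ hu₀ => ?_⟩
  have hball : ∀ s : ℝ, |s| ≤ ε / 2 → dist ((s₀, u₀, s) : ℝ × ℝ × ℝ) 0 < ε := by
    intro s hs
    have h8 : dist ((s₀, u₀, s) : ℝ × ℝ × ℝ) 0 ≤ ε / 2 := by
      rw [dist_zero_right, Prod.norm_mk, Prod.norm_mk]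
      exact max_le hs₀ (max_le hu₀ hs)
    linarith
  have h00 : |(0 : ℝ)| ≤ ε / 2 := by
    rw [abs_zero]
    positivity
  have hA := (hall (hball 0 h00)).1
  refine ⟨Φ (P (s₀, u₀, 0)).1 (P (s₀, u₀, 0)).2, hA 0, hA 2, ?_, ?_, ?_⟩
  · intro s hs hne
    obtain ⟨-, hB, hC, -, -, -⟩ := hall (hball s hs)
    have h8 : Φ (P (s₀, u₀, 0)).1 (P (s₀, u₀, 0)).2 (gam v t nn bb c s₀) = 1 := hA 0
    have h9 : Φ (P (s₀, u₀, 0)).1 (P (s₀, u₀, 0)).2 (gam' v t nn bb c s₀) = 0 := hA 1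
    have hB' : Φ (P (s₀, u₀, 0)).1 (P (s₀, u₀, 0)).2 (gam2 v nn bb c s s₀) < 0 := hB
    have hC' : -1 < Φ (P (s₀, u₀, 0)).1 (P (s₀, u₀, 0)).2 (gam v t nn bb c s) := hC
    rw [abs_lt]
    refine ⟨hC', ?_⟩
    rw [gam_taylor v t nn bb c s s₀, map_add, map_add, map_smul, map_smul, h8, h9, smul_zero,
      add_zero, smul_eq_mul]
    have h10 : 0 < (s - s₀) ^ 2 := by
      have := sub_ne_zero.2 hne
      positivity
    nlinarith
  · intro s hs hne
    obtain ⟨-, -, -, hD, hE, -⟩ := hall (hball s hs)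
    have h8 : Φ (P (s₀, u₀, 0)).1 (P (s₀, u₀, 0)).2 (gam v t nn bb c' u₀) = sg b := hA 2
    have h9 : Φ (P (s₀, u₀, 0)).1 (P (s₀, u₀, 0)).2 (gam' v t nn bb c' u₀) = 0 := hA 3
    have hD' : sg b * Φ (P (s₀, u₀, 0)).1 (P (s₀, u₀, 0)).2 (gam2 v nn bb c' s u₀) < 0 := hD
    have hE' : -1 < sg b * Φ (P (s₀, u₀, 0)).1 (P (s₀, u₀, 0)).2 (gam v t nn bb c' s) := hE
    have hsg := cross_sg b
    have habs : |sg b| = 1 := by cases b <;> simp [sg]
    have h11 : |Φ (P (s₀, u₀, 0)).1 (P (s₀, u₀, 0)).2 (gam v t nn bb c' s)| =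
        |sg b * Φ (P (s₀, u₀, 0)).1 (P (s₀, u₀, 0)).2 (gam v t nn bb c' s)| := by
      rw [abs_mul, habs, one_mul]
    rw [h11, abs_lt]
    refine ⟨hE', ?_⟩
    rw [gam_taylor v t nn bb c' s u₀, map_add, map_add, map_smul, map_smul, h8, h9, smul_zero,
      add_zero, smul_eq_mul, mul_add, hsg]
    have h10 : 0 < (s - u₀) ^ 2 := by
      have := sub_ne_zero.2 hne
      positivity
    nlinarith
  · intro k hk1 hk2 s hs
    obtain ⟨-, -, -, -, -, hF⟩ := hall (hball s hs)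
    exact hF k hk1 hk2

end Pool.Agent.Lib.MP_a3b162_co.ES
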