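import Pool.Agent.Lib.MP_a3b162_co.NG.Basic

/-!
MP_a3b162_co, hand-in ManyEdges: cluster data and the curves of the clusters.
-/

set_option autoImplicit false

namespace Pool.Agent.Lib.MP_a3b162_co.ES

open Pool.Agent.Lib.MP_a3b162_co

variable {E C : Type*} [AddCommGroup E] [Module ℝ E]

/-- cluster data: for every class `c` a vertex `v c`, a tangent vector `t c` and two more vectors -/
structure Clu (v t nn bb : C → E) : Prop where
  cross : ∀ c c' : C, c ≠ c' → ∀ b : Bool, ∃ φ : E →ₗ[ℝ] ℝ, φ (v c) = 1 ∧ φ (v c') = sg b ∧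
    φ (t c) = 0 ∧ φ (t c') = 0 ∧ φ (nn c) < 0 ∧ sg b * φ (nn c') < 0 ∧
    ∀ k, k ≠ c → k ≠ c' → |φ (v k)| < 1
  same : ∀ c : C, ∃ χ : E →ₗ[ℝ] ℝ, χ (v c) = 1 ∧ χ (t c) = 0 ∧ χ (nn c) = 0 ∧ χ (bb c) = 0 ∧
    ∀ k, k ≠ c → |χ (v k)| < 1
  ind1 : ∀ c c' : C, c ≠ c' → LinearIndependent ℝ ![v c, t c, v c', t c']
  ind2 : ∀ c : C, LinearIndependent ℝ ![v c, t c, nn c, bb c]

/-- the curve of the class `c` -/
def gam (v t nn bb : C → E) (c : C) (s : ℝ) : E :=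
  (1 - s ^ 4) • v c + s • t c + s ^ 2 • nn c + s ^ 3 • bb c

/-- its derivative -/
def gam' (v t nn bb : C → E) (c : C) (s : ℝ) : E :=
  (-(4 * s ^ 3)) • v c + t c + (2 * s) • nn c + (3 * s ^ 2) • bb c

/-- the second divided difference of the curve at `s, s₀, s₀` -/
def gam2 (v nn bb : C → E) (c : C) (s s₀ : ℝ) : E :=
  nn c + (s + 2 * s₀) • bb c - (s ^ 2 + 2 * s * s₀ + 3 * s₀ ^ 2) • v c

/-- Taylor -/
theorem gam_taylor (v t nn bb : C → E) (c : C) (s s₀ : ℝ) :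
    gam v t nn bb c s = gam v t nn bb c s₀ + (s - s₀) • gam' v t nn bb c s₀ +
      (s - s₀) ^ 2 • gam2 v nn bb c s s₀ := by
  unfold gam gam' gam2
  module

@[simp] theorem gam_zero (v t nn bb : C → E) (c : C) : gam v t nn bb c 0 = v c := by
  simp [gam]

@[simp] theorem gam'_zero (v t nn bb : C → E) (c : C) : gam' v t nn bb c 0 = t c := by
  simp [gam']

@[simp] theorem gam2_zero (v nn bb : C → E) (c : C) : gam2 v nn bb c 0 0 = nn c := by
  simp [gam2]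

end Pool.Agent.Lib.MP_a3b162_co.ES
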