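import Pool.Agent.Lib.MP_a3b162_co.ES.Defs

/-!
MODULE A3.  Pairs of points of the same cluster (also `s₁ = s₂`).

PROOF.  `χ` from `h.same c`; functionals `ev, et, en, eb` dual to `v c, t c, nn c, bb c` (independent by
`h.ind2`).  Put `p = s₁ + s₂`, `r = s₁ s₂`, `μ = 1 / (1 + r^2)` and
`φ = χ + (μ - 1) ev + (2 μ p r) et - (μ (p^2 + 2 r)) en + (2 μ p) eb`.  Then `φ (v c) = μ`,
`φ (t c) = 2 μ p r`, `φ (nn c) = -μ (p^2 + 2r)`, `φ (bb c) = 2 μ p`, hence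
`φ (gam c s) = 1 - μ (s^2 - p s + r)^2 = 1 - μ ((s - s₁)(s - s₂))^2`.
This is 1 at `s₁, s₂`, `< 1` elsewhere, and `> -1` when all parameters are at most `1/2` in absolute value.
For `k ≠ c`: `φ (gam k s) → χ (v k)` as `(s₁, s₂, s) → 0` (a finite sum of continuous functions), and
`|χ (v k)| < 1`; finitely many `k`; take a cube of side `ρ ≤ 1/2`.
-/

set_option autoImplicit false

namespace Pool.Agent.Lib.MP_a3b162_co.ES

open Pool.Agent.Lib.MP_a3b162_co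

private theorem same_dual {d : ℕ} {w : Fin 4 → (Fin d → ℝ)} (hw : LinearIndependent ℝ w)
    (a : Fin 4 → ℝ) : ∃ g : (Fin d → ℝ) →ₗ[ℝ] ℝ, ∀ i, g (w i) = a i := by
  obtain ⟨g, hg⟩ := LinearMap.exists_extend
    ((Finsupp.linearCombination ℝ a).comp hw.repr)
  refine ⟨g, fun i => ?_⟩
  have hm : w i ∈ Submodule.span ℝ (Set.range w) := Submodule.subset_span ⟨i, rfl⟩
  have h1 := LinearMap.congr_fun hg ⟨w i, hm⟩
  simp only [LinearMap.comp_apply, Submodule.subtype_apply] at h1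
  rw [h1, hw.repr_eq_single i ⟨w i, hm⟩ rfl]
  simp

private theorem same_lin {d : ℕ} {C : Type*} (v t nn bb : C → (Fin d → ℝ)) (k : C) (s : ℝ)
    (g : (Fin d → ℝ) →ₗ[ℝ] ℝ) : g (gam v t nn bb k s) =
      (1 - s ^ 4) * g (v k) + s * g (t k) + s ^ 2 * g (nn k) + s ^ 3 * g (bb k) := by
  simp [gam]

theorem same_near {d : ℕ} {C : Type*} [Finite C] {v t nn bb : C → (Fin d → ℝ)}
    (h : Clu v t nn bb) (c : C) :
    ∃ ρ : ℝ, 0 < ρ ∧ ∀ s₁ s₂ : ℝ, |s₁| ≤ ρ → |s₂| ≤ ρ → ∃ φ : (Fin d → ℝ) →ₗ[ℝ] ℝ,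
      φ (gam v t nn bb c s₁) = 1 ∧ φ (gam v t nn bb c s₂) = 1 ∧
      (∀ s, |s| ≤ ρ → s ≠ s₁ → s ≠ s₂ → |φ (gam v t nn bb c s)| < 1) ∧
      ∀ k, k ≠ c → ∀ s, |s| ≤ ρ → |φ (gam v t nn bb k s)| < 1 := by
  obtain ⟨χ, hχv, hχt, hχn, hχb, hχk⟩ := h.same c
  obtain ⟨ev, hev⟩ := same_dual (h.ind2 c) ![1, 0, 0, 0]
  obtain ⟨et, het⟩ := same_dual (h.ind2 c) ![0, 1, 0, 0]
  obtain ⟨en, hen⟩ := same_dual (h.ind2 c) ![0, 0, 1, 0]
  obtain ⟨eb, heb⟩ := same_dual (h.ind2 c) ![0, 0, 0, 1]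
  simp only [Fin.forall_fin_succ, Matrix.cons_val_zero, Matrix.cons_val_succ, IsEmpty.forall_iff,
    and_true] at hev het hen heb
  obtain ⟨hev1, hev2, hev3, hev4⟩ := hev
  obtain ⟨het1, het2, het3, het4⟩ := het
  obtain ⟨hen1, hen2, hen3, hen4⟩ := hen
  obtain ⟨heb1, heb2, heb3, heb4⟩ := heb
  set P : ℝ → ℝ → (Fin d → ℝ) →ₗ[ℝ] ℝ := fun s₁ s₂ =>
    χ + ((1 + (s₁ * s₂) ^ 2)⁻¹ - 1) • ev +
      (2 * (1 + (s₁ * s₂) ^ 2)⁻¹ * (s₁ + s₂) * (s₁ * s₂)) • et -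
      ((1 + (s₁ * s₂) ^ 2)⁻¹ * ((s₁ + s₂) ^ 2 + 2 * (s₁ * s₂))) • en +
      (2 * (1 + (s₁ * s₂) ^ 2)⁻¹ * (s₁ + s₂)) • eb with hP
  have hPc : ∀ s₁ s₂ s : ℝ, P s₁ s₂ (gam v t nn bb c s) =
      1 - (1 + (s₁ * s₂) ^ 2)⁻¹ * ((s - s₁) * (s - s₂)) ^ 2 := by
    intro s₁ s₂ s
    have hpos : (1 + (s₁ * s₂) ^ 2) ≠ 0 := by positivity
    simp only [hP, LinearMap.add_apply, LinearMap.sub_apply, LinearMap.smul_apply, smul_eq_mul,
      same_lin, hχv, hχt, hχn, hχb, hev1, hev2, hev3, hev4, het1, het2, het3, het4, hen1, hen2,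
      hen3, hen4, heb1, heb2, heb3, heb4]
    field_simp
    ring
  have hcont : ∀ k, Continuous (fun q : ℝ × ℝ × ℝ => P q.1 q.2.1 (gam v t nn bb k q.2.2)) := by
    intro k
    simp only [hP, LinearMap.add_apply, LinearMap.sub_apply, LinearMap.smul_apply, smul_eq_mul,
      same_lin]
    have hi : Continuous (fun q : ℝ × ℝ × ℝ => (1 + (q.1 * q.2.1) ^ 2)⁻¹) :=
      Continuous.inv₀ (by fun_prop) (fun q => by positivity)
    fun_prop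
  have hev0 : ∀ᶠ q in nhds (0 : ℝ × ℝ × ℝ), ∀ k, k ≠ c →
      |P q.1 q.2.1 (gam v t nn bb k q.2.2)| < 1 := by
    rw [Filter.eventually_all]
    intro k
    by_cases hk : k = c
    · exact Filter.Eventually.of_forall fun q h => absurd hk h
    · have h1 : |P (0 : ℝ × ℝ × ℝ).1 (0 : ℝ × ℝ × ℝ).2.1
          (gam v t nn bb k (0 : ℝ × ℝ × ℝ).2.2)| < 1 := by
        have : P (0 : ℝ × ℝ × ℝ).1 (0 : ℝ × ℝ × ℝ).2.1
          (gam v t nn bb k (0 : ℝ × ℝ × ℝ).2.2) = χ (v k) := by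
          simp [hP]
        rw [this]
        exact hχk k hk
      have h2 := ((hcont k).abs.continuousAt (x := 0)).eventually_lt_const h1
      exact h2.mono fun q hq _ => hq
  obtain ⟨ρ, hρ, hball⟩ := Metric.nhds_basis_closedBall.eventually_iff.1 hev0
  refine ⟨min ρ (1 / 2), lt_min hρ (by norm_num), fun s₁ s₂ h1 h2 => ⟨P s₁ s₂, ?_, ?_, ?_, ?_⟩⟩
  · rw [hPc]; simp
  · rw [hPc]; simp
  · intro s hs hs1 hs2
    rw [hPc]
    have a1 := abs_le.1 (h1.trans (min_le_right _ _))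
    have a2 := abs_le.1 (h2.trans (min_le_right _ _))
    have a3 := abs_le.1 (hs.trans (min_le_right _ _))
    have hne : ((s - s₁) * (s - s₂)) ≠ 0 := mul_ne_zero (sub_ne_zero.2 hs1) (sub_ne_zero.2 hs2)
    have hq : 0 < ((s - s₁) * (s - s₂)) ^ 2 := by positivity
    have hμ : 0 < (1 + (s₁ * s₂) ^ 2)⁻¹ := by positivity
    have hμ1 : (1 + (s₁ * s₂) ^ 2)⁻¹ ≤ 1 := inv_le_one_of_one_le₀ (by nlinarith [sq_nonneg (s₁ * s₂)])
    have hq1 : ((s - s₁) * (s - s₂)) ^ 2 ≤ 1 := by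
      have b1 : |s - s₁| ≤ 1 := by rw [abs_le]; constructor <;> linarith
      have b2 : |s - s₂| ≤ 1 := by rw [abs_le]; constructor <;> linarith
      have b3 : |(s - s₁) * (s - s₂)| ≤ 1 := by
        rw [abs_mul]
        exact mul_le_one₀ b1 (abs_nonneg _) b2
      rw [← sq_abs]
      exact pow_le_one₀ (abs_nonneg _) b3
    have hm : (1 + (s₁ * s₂) ^ 2)⁻¹ * ((s - s₁) * (s - s₂)) ^ 2 ≤ 1 :=
      mul_le_one₀ hμ1 hq.le hq1
    have hm2 : 0 < (1 + (s₁ * s₂) ^ 2)⁻¹ * ((s - s₁) * (s - s₂)) ^ 2 := mul_pos hμ hq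
    rw [abs_lt]
    constructor <;> linarith
  · intro k hk s hs
    have hmem : ((s₁, s₂, s) : ℝ × ℝ × ℝ) ∈ Metric.closedBall (0 : ℝ × ℝ × ℝ) ρ := by
      rw [mem_closedBall_zero_iff]
      simp only [Prod.norm_def, Real.norm_eq_abs, sup_le_iff]
      exact ⟨h1.trans (min_le_left _ _), h2.trans (min_le_left _ _), hs.trans (min_le_left _ _)⟩
    exact hball hmem k hk

end Pool.Agent.Lib.MP_a3b162_co.ES
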