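import Pool.Agent.Lib.MP_a3b162_co.ES.Cross
import Pool.Agent.Lib.MP_a3b162_co.ES.Same

/-!
MODULE A4.  The family of vertices.

PROOF.  `ρ` = minimum of the finitely many `ρ`'s of `cross_near` (all `c ≠ c'`, `b`) and `same_near` (all `c`).
`cl i = ⟨i % r, _⟩ : Fin r`, `τ i = ρ * i / (n + 1)` (injective, in `[0, ρ]`), `w i = gam (cl i) (τ i)`.
Same class: `same_near`; different classes: `cross_near` with `b` (both signs).  `Vtx`: `same_near` with
`s₁ = s₂ = τ i`.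
-/

set_option autoImplicit false

namespace Pool.Agent.Lib.MP_a3b162_co.ES

open Pool.Agent.Lib.MP_a3b162_co

private theorem fam_min {ι : Type*} [Finite ι] (f : ι → ℝ) (hf : ∀ i, 0 < f i) :
    ∃ ρ : ℝ, 0 < ρ ∧ ∀ i, ρ ≤ f i := by
  rcases isEmpty_or_nonempty ι with h | h
  · exact ⟨1, one_pos, fun i => (h.false i).elim⟩
  · obtain ⟨i, hi⟩ := Finite.exists_min f
    exact ⟨f i, hf i, hi⟩

theorem family {d r : ℕ} (hr : 1 ≤ r) {v t nn bb : Fin r → (Fin d → ℝ)}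
    (h : Clu v t nn bb) (n : ℕ) :
    ∃ w : Fin n → (Fin d → ℝ), NG.Vtx w ∧ ∀ i j : Fin n, i ≠ j →
      Pres w i j true ∧ (i.val % r ≠ j.val % r → Pres w i j false) := by
  classical
  choose ρ₁ hρ₁ h₁ using fun c : Fin r => same_near h c
  have hx : ∀ q : Fin r × Fin r × Bool, ∃ ρ : ℝ, 0 < ρ ∧ (q.1 ≠ q.2.1 → ∀ s₀ u₀ : ℝ,
      |s₀| ≤ ρ → |u₀| ≤ ρ → ∃ φ : (Fin d → ℝ) →ₗ[ℝ] ℝ,
      φ (gam v t nn bb q.1 s₀) = 1 ∧ φ (gam v t nn bb q.2.1 u₀) = sg q.2.2 ∧
      (∀ s, |s| ≤ ρ → s ≠ s₀ → |φ (gam v t nn bb q.1 s)| < 1) ∧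
      (∀ s, |s| ≤ ρ → s ≠ u₀ → |φ (gam v t nn bb q.2.1 s)| < 1) ∧
      ∀ k, k ≠ q.1 → k ≠ q.2.1 → ∀ s, |s| ≤ ρ → |φ (gam v t nn bb k s)| < 1) := by
    rintro ⟨c, c', b⟩
    by_cases hc : c = c'
    · exact ⟨1, one_pos, fun h' => absurd hc h'⟩
    · obtain ⟨ρ, h0, h'⟩ := cross_near h hc b
      exact ⟨ρ, h0, fun _ => h'⟩
  choose ρ₂ hρ₂ h₂ using hx
  obtain ⟨ra, hra, hra'⟩ := fam_min ρ₁ hρ₁
  obtain ⟨rb, hrb, hrb'⟩ := fam_min ρ₂ hρ₂
  set ρ := min ra rb with hρdef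
  have hρ : 0 < ρ := lt_min hra hrb
  have hn0 : (0 : ℝ) < (n : ℝ) + 1 := by positivity
  set τ : Fin n → ℝ := fun i => ρ * (i.val : ℝ) / ((n : ℝ) + 1) with hτ
  have hτr : ∀ i, |τ i| ≤ ρ := by
    intro i
    have h0 : 0 ≤ τ i := by simp only [hτ]; positivity
    rw [abs_of_nonneg h0]
    simp only [hτ]
    rw [div_le_iff₀ hn0]
    have h1 : (i.val : ℝ) ≤ (n : ℝ) := by exact_mod_cast i.isLt.le
    nlinarith
  have hinj : ∀ i j, i ≠ j → τ i ≠ τ j := by
    intro i j hij h'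
    apply hij
    simp only [hτ] at h'
    have h1 : ρ * (i.val : ℝ) = ρ * (j.val : ℝ) := by
      rw [div_left_inj' hn0.ne'] at h'
      exact h'
    have h2 : (i.val : ℝ) = (j.val : ℝ) := mul_left_cancel₀ hρ.ne' h1
    exact Fin.ext (by exact_mod_cast h2)
  set cl : Fin n → Fin r := fun i => ⟨i.val % r, Nat.mod_lt _ hr⟩ with hcl
  have ha : ∀ i c, |τ i| ≤ ρ₁ c := fun i c => (hτr i).trans ((min_le_left _ _).trans (hra' c))
  have hb : ∀ i q, |τ i| ≤ ρ₂ q := fun i q => (hτr i).trans ((min_le_right _ _).trans (hrb' q))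
  have key : ∀ i j : Fin n, i ≠ j → ∀ b : Bool, (b = true ∨ cl i ≠ cl j) →
      Pres (fun i : Fin n => gam v t nn bb (cl i) (τ i)) i j b := by
    intro i j hij b hb'
    by_cases hc : cl i = cl j
    · have hbt : b = true := by
        rcases hb' with h' | h'
        · exact h'
        · exact absurd hc h'
      subst hbt
      obtain ⟨φ, e1, e2, e3, e4⟩ := h₁ (cl i) (τ i) (τ j) (ha i _) (ha j _)
      refine ⟨φ, e1, ?_, ?_⟩
      · simp only [sg_true]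
        rw [← hc]
        exact e2
      · intro k hki hkj
        by_cases hk : cl k = cl i
        · simp only [hk]
          exact e3 _ (ha k _) (hinj k i hki) (hinj k j hkj)
        · exact e4 _ hk _ (ha k _)
    · obtain ⟨φ, e1, e2, e3, e4, e5⟩ := h₂ (cl i, cl j, b) hc (τ i) (τ j) (hb i _) (hb j _)
      refine ⟨φ, e1, e2, ?_⟩
      intro k hki hkj
      by_cases hk : cl k = cl i
      · simp only [hk]
        exact e3 _ (hb k _) (hinj k i hki)
      · by_cases hk' : cl k = cl j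
        · simp only [hk']
          exact e4 _ (hb k _) (hinj k j hkj)
        · exact e5 _ hk hk' _ (hb k _)
  refine ⟨fun i => gam v t nn bb (cl i) (τ i), ?_, fun i j hij => ⟨key i j hij true (Or.inl rfl),
    fun hne => key i j hij false (Or.inr ?_)⟩⟩
  · intro i
    obtain ⟨φ, e1, e2, e3, e4⟩ := h₁ (cl i) (τ i) (τ i) (ha i _) (ha i _)
    refine ⟨φ, e1, fun k hki => ?_⟩
    by_cases hk : cl k = cl i
    · simp only [hk]
      exact e3 _ (ha k _) (hinj k i hki) (hinj k i hki)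
    · exact e4 _ hk _ (ha k _)
  · intro h'
    apply hne
    have := congrArg Fin.val h'
    simpa [hcl] using this

end Pool.Agent.Lib.MP_a3b162_co.ES
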