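import Pool.Agent.Lib.MP_a3b162_co.ES.ConfMain
import Pool.Agent.Lib.MP_a3b162_co.ES.Family
import Pool.Agent.Lib.MP_a3b162_co.ES.Count
import Pool.Agent.Lib.MP_a3b162_co.NG.Final

/-!
MODULE C1.  The theorem.

PROOF.  `conf`, `family`, `count_edges` give `w` with `Vtx w` and
`2 EE w ≥ (2 - 1/2^(d-3)) n^2 - n - 2^(d-3)/4`; `vtx_EE_open` and `perturb` make it generic; `Q = PPd w'`,
`f 0 Q = 2 n`, `f 1 Q ≥ 2 EE w' ≥ 2 m`; then `nogaps`.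
-/

set_option autoImplicit false

namespace Pool.Agent.Lib.MP_a3b162_co.ES

open Pool.Agent.Lib.MP_a3b162_co

theorem many_edges {d n m : ℕ} (hd : 4 ≤ d) (hn : d ≤ n) (h1 : d * (n - 1) ≤ m)
    (h2 : 2 * (m : ℝ) ≤ (1 - 1 / 2 ^ (d - 2)) * (2 * (n : ℝ) ^ 2) - n - 2 ^ d / 32) :
    ∃ P : Set (Fin d → ℝ), IsPolytope P ∧ IsCS P ∧ IsSimplicial P ∧ f 0 P = 2 * n ∧
      f 1 P = 2 * m := by
  obtain ⟨v0, t, nn, bb, hclu⟩ := conf hd
  have hr : 1 ≤ 2 ^ (d - 3) := Nat.one_le_two_pow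
  obtain ⟨w, hV, hP⟩ := family hr hclu n
  have h3 := count_edges hr w hP
  have hm : m ≤ NG.EE w := by
    obtain ⟨k, rfl⟩ : ∃ k, d = k + 4 := ⟨d - 4, by omega⟩
    have e1 : k + 4 - 3 = k + 1 := by omega
    have e2 : k + 4 - 2 = k + 2 := by omega
    rw [e1] at h3
    rw [e2] at h2
    have e3 : (2 - 1 / ((2 ^ (k + 1) : ℕ) : ℝ)) * (n : ℝ) ^ 2 - n - ((2 ^ (k + 1) : ℕ) : ℝ) / 4 =
        (1 - 1 / 2 ^ (k + 2)) * (2 * (n : ℝ) ^ 2) - n - 2 ^ (k + 4) / 32 := by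
      push_cast
      have h2k : (2 : ℝ) ^ k ≠ 0 := by positivity
      rw [pow_succ, pow_add (2 : ℝ) k 2, pow_add (2 : ℝ) k 4]
      field_simp
      ring
    rw [e3] at h3
    have h4 : 2 * (m : ℝ) ≤ 2 * (NG.EE w : ℝ) := h2.trans h3
    have h5 : (m : ℝ) ≤ (NG.EE w : ℝ) := by linarith
    exact_mod_cast h5
  obtain ⟨δ, hδ, h4⟩ := NG.vtx_EE_open hV
  obtain ⟨v', h5, hA', hB'⟩ := NG.perturb (by omega) w δ hδ
  obtain ⟨hV', h6⟩ := h4 v' h5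
  obtain ⟨u, hA, hB, hVu, h7⟩ := NG.induct hd hn hA' hB' hV' h1 (hm.trans h6)
  refine ⟨NG.PPd u, NG.ppd_polytope (by omega) hn hA, ⟨0, NG.ppd_cs u⟩,
    NG.ppd_simplicial (by omega) hn hA hB hVu, NG.ppd_fzero (by omega) hn hA hVu, ?_⟩
  apply le_antisymm
  · have h8 := NG.edges_le (c := 0) (v := u) (by omega) (NG.ppd_polytope (by omega) hn hA)
      (NG.ppd_cs u)
      (by simpa using NG.ppd_inj hVu) (by simpa using (NG.ppd_ext hVu).symm)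
    rw [h7] at h8
    exact h8
  · have h8 := NG.edges_ge (by omega) hn hA hVu
    rw [h7] at h8
    exact h8

end Pool.Agent.Lib.MP_a3b162_co.ES
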