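import Pool.Agent.Lib.MP_a3b162_co.ES.Conf

/-!
MODULE B0.  Heights exist: `h c = (8 (M+1)) ^ (e c)` with `e : (Fin M → Bool) ≃ Fin (2^M)`
(`Fintype.equivFin`, any injective numbering).
-/

set_option autoImplicit false

namespace Pool.Agent.Lib.MP_a3b162_co.ES

open Pool.Agent.Lib.MP_a3b162_co

theorem exists_sep (M : ℕ) : ∃ h : (Fin M → Bool) → ℝ, Sep h := by
  classical
  obtain ⟨q, hq⟩ : ∃ q : ℝ, q = 8 * ((M : ℝ) + 1) := ⟨_, rfl⟩
  have hM : (0 : ℝ) ≤ M := Nat.cast_nonneg M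
  have hq1 : 1 ≤ q := by
    rw [hq]
    linarith
  let e : (Fin M → Bool) ≃ Fin (Fintype.card (Fin M → Bool)) := Fintype.equivFin _
  have key : ∀ c c' : Fin M → Bool, (e c : ℕ) < (e c' : ℕ) →
      8 * ((M : ℝ) + 1) * q ^ (e c : ℕ) ≤ q ^ (e c' : ℕ) := by
    intro c c' h
    rw [← hq, ← pow_succ']
    exact pow_le_pow_right₀ hq1 h
  refine ⟨fun c => q ^ (e c : ℕ), fun c => by positivity, fun c c' hcc => ?_⟩
  have hne : (e c : ℕ) ≠ (e c' : ℕ) := fun h => hcc (e.injective (Fin.ext h))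
  rcases Nat.lt_or_gt_of_ne hne with h | h
  · exact Or.inl (key c c' h)
  · exact Or.inr (key c' c h)

end Pool.Agent.Lib.MP_a3b162_co.ES
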