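import Pool.Agent.Lib.MP_a3b162_co.ES.Conf

/-!
MODULE B2.  Facts on sign vectors.

PROOF.  All `zz c a` are `1` or `-1`, `zz c 0 = 1`, `zz` is injective.  `zP x y b a` is `zz x a` on
`S = {a : zz x a = sg b * zz y a}` and `0` elsewhere, `zQ x y b a` is `zz x a` on the complement of `S`.
`S` is neither empty nor everything (`b = true`: `0 ∈ S` and `x ≠ y`; `b = false`: `0 ∉ S`, and if `S` were empty
then `zz x = zz y`).  So `nP = |S| ≥ 1`, `nQ = |S^c| ≥ 1`, `nP + nQ = M + 1`.
`zfacts`: for `g = sg τ • zz k`: `∑ zP a * g a = ∑_{a ∈ S} zz x a * g a`, a sum of `|S|` signs: either all are `1`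
(then it is `nP`) or it is at most `nP - 2 ≤ nP (1 - 2/(M+1))`.  In the first case `g = sg b * zz y` on `S`, and
`g ≠ sg b • zz y` (else `(k, τ) = (y, b)` by injectivity and the coordinate `0`), so some `a ∉ S` has
`g a = zz x a`, and `∑ zQ a * g a ≥ -nQ + 2 ≥ nQ (-1 + 2/(M+1))`.
`zz_inner`: one coordinate of `x` and `k` differs, the coordinate `0` agrees.
-/

set_option autoImplicit false

namespace Pool.Agent.Lib.MP_a3b162_co.ES

open Pool.Agent.Lib.MP_a3b162_co

variable {M : ℕ}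

private theorem sg_or (b : Bool) : sg b = 1 ∨ sg b = -1 := by
  cases b <;> simp [sg]

private theorem sg_injective {b b' : Bool} (h : sg b = sg b') : b = b' := by
  cases b <;> cases b' <;> simp [sg] at h ⊢ <;> norm_num at h

private theorem zz_zero (c : Fin M → Bool) : zz c 0 = 1 := by
  simp [zz]

private theorem zz_succ (c : Fin M → Bool) (a : Fin M) : zz c a.succ = sg (c a) := by
  simp [zz]

theorem zz_sq (c : Fin M → Bool) (a : Fin (M + 1)) : zz c a = 1 ∨ zz c a = -1 := by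
  refine Fin.cases ?_ (fun a => ?_) a
  · exact Or.inl (zz_zero c)
  · rw [zz_succ]; exact sg_or _

theorem zz_inj {c c' : Fin M → Bool} (h : zz c = zz c') : c = c' := by
  funext a
  have h1 := congrFun h a.succ
  rw [zz_succ, zz_succ] at h1
  exact sg_injective h1

private theorem exists_ne {x y : Fin M → Bool} (hxy : x ≠ y) : ∃ a : Fin M, sg (y a) = - sg (x a) := by
  obtain ⟨a, ha⟩ := Function.ne_iff.1 hxy
  refine ⟨a, ?_⟩
  cases h1 : x a <;> cases h2 : y a <;> simp_all [sg]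

private theorem pt_facts (x y : Fin M → Bool) (b : Bool) (a : Fin (M + 1)) :
    (zP x y b a * zz x a = zP x y b a ^ 2 ∧ zP x y b a * zz y a = sg b * zP x y b a ^ 2) ∧
    (zQ x y b a * zz x a = zQ x y b a ^ 2 ∧ zQ x y b a * zz y a = -(sg b * zQ x y b a ^ 2)) ∧
    ((zP x y b a ^ 2 = 1 ∧ zQ x y b a = 0 ∧ zz x a = sg b * zz y a) ∨
      (zQ x y b a ^ 2 = 1 ∧ zP x y b a = 0 ∧ zz x a = -(sg b * zz y a))) := by
  unfold zP zQ
  rcases zz_sq x a with h1 | h1 <;> rcases zz_sq y a with h2 | h2 <;>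
    rcases sg_or b with h3 | h3 <;> rw [h1, h2, h3] <;> norm_num

theorem nP_pos {x y : Fin M → Bool} (hxy : x ≠ y) (b : Bool) : 0 < nP x y b := by
  unfold nP
  have key : ∃ a, 0 < zP x y b a ^ 2 := by
    cases b with
    | true => exact ⟨0, by simp [zP, zz_zero, sg]⟩
    | false =>
      obtain ⟨a, ha⟩ := exists_ne hxy
      refine ⟨a.succ, ?_⟩
      unfold zP
      rw [zz_succ, zz_succ, ha]
      rcases sg_or (x a) with h | h <;> rw [h, sg_false] <;> norm_num
  obtain ⟨a, ha⟩ := key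
  exact lt_of_lt_of_le ha (Finset.single_le_sum (f := fun a => zP x y b a ^ 2)
    (fun i _ => sq_nonneg _) (Finset.mem_univ a))

theorem nQ_pos {x y : Fin M → Bool} (hxy : x ≠ y) (b : Bool) : 0 < nQ x y b := by
  unfold nQ
  have key : ∃ a, 0 < zQ x y b a ^ 2 := by
    cases b with
    | false => exact ⟨0, by simp [zQ, zz_zero, sg]⟩
    | true =>
      obtain ⟨a, ha⟩ := exists_ne hxy
      refine ⟨a.succ, ?_⟩
      unfold zQ
      rw [zz_succ, zz_succ, ha]
      rcases sg_or (x a) with h | h <;> rw [h, sg_true] <;> norm_num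
  obtain ⟨a, ha⟩ := key
  exact lt_of_lt_of_le ha (Finset.single_le_sum (f := fun a => zQ x y b a ^ 2)
    (fun i _ => sq_nonneg _) (Finset.mem_univ a))

theorem zP_x (x y : Fin M → Bool) (b : Bool) : ∑ a, zP x y b a * zz x a = nP x y b :=
  Finset.sum_congr rfl fun a _ => (pt_facts x y b a).1.1

theorem zP_y (x y : Fin M → Bool) (b : Bool) : ∑ a, zP x y b a * zz y a = sg b * nP x y b := by
  unfold nP
  rw [Finset.mul_sum]
  exact Finset.sum_congr rfl fun a _ => (pt_facts x y b a).1.2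

theorem zQ_x (x y : Fin M → Bool) (b : Bool) : ∑ a, zQ x y b a * zz x a = nQ x y b :=
  Finset.sum_congr rfl fun a _ => (pt_facts x y b a).2.1.1

theorem zQ_y (x y : Fin M → Bool) (b : Bool) : ∑ a, zQ x y b a * zz y a = -(sg b * nQ x y b) := by
  unfold nQ
  rw [Finset.mul_sum, ← Finset.sum_neg_distrib]
  exact Finset.sum_congr rfl fun a _ => (pt_facts x y b a).2.1.2

private theorem pt_abs (x y : Fin M → Bool) (b : Bool) (a : Fin (M + 1)) (s : ℝ)
    (hs : s = 1 ∨ s = -1) : |zP x y b a * s| ≤ zP x y b a ^ 2 ∧ |zQ x y b a * s| ≤ zQ x y b a ^ 2 := by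
  have h0 : |s| = 1 := by rcases hs with h | h <;> rw [h] <;> simp
  rw [abs_mul, abs_mul, h0, mul_one, mul_one]
  rcases (pt_facts x y b a).2.2 with ⟨h1, h2, _⟩ | ⟨h1, h2, _⟩
  · rw [h2, h1]
    refine ⟨?_, by simp⟩
    have h3 : |zP x y b a| ^ 2 = 1 := by rw [sq_abs, h1]
    nlinarith [abs_nonneg (zP x y b a)]
  · rw [h2, h1]
    refine ⟨by simp, ?_⟩
    have h3 : |zQ x y b a| ^ 2 = 1 := by rw [sq_abs, h1]
    nlinarith [abs_nonneg (zQ x y b a)]

theorem zP_abs (x y : Fin M → Bool) (b : Bool) (k : Fin M → Bool) :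
    |∑ a, zP x y b a * zz k a| ≤ nP x y b :=
  (Finset.abs_sum_le_sum_abs _ _).trans
    (Finset.sum_le_sum fun a _ => (pt_abs x y b a _ (zz_sq k a)).1)

theorem zQ_abs (x y : Fin M → Bool) (b : Bool) (k : Fin M → Bool) :
    |∑ a, zQ x y b a * zz k a| ≤ nQ x y b :=
  (Finset.abs_sum_le_sum_abs _ _).trans
    (Finset.sum_le_sum fun a _ => (pt_abs x y b a _ (zz_sq k a)).2)

private theorem nP_le (x y : Fin M → Bool) (b : Bool) : nP x y b ≤ (M : ℝ) + 1 := by
  have h : nP x y b ≤ ∑ _a : Fin (M + 1), (1 : ℝ) := by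
    refine Finset.sum_le_sum fun a _ => ?_
    rcases (pt_facts x y b a).2.2 with ⟨h1, _, _⟩ | ⟨_, h2, _⟩
    · rw [h1]
    · rw [h2]; norm_num
  simpa using h

private theorem nQ_le (x y : Fin M → Bool) (b : Bool) : nQ x y b ≤ (M : ℝ) + 1 := by
  have h : nQ x y b ≤ ∑ _a : Fin (M + 1), (1 : ℝ) := by
    refine Finset.sum_le_sum fun a _ => ?_
    rcases (pt_facts x y b a).2.2 with ⟨_, h2, _⟩ | ⟨h1, _, _⟩
    · rw [h2]; norm_num
    · rw [h1]
  simpa using h

theorem zfacts {x y : Fin M → Bool} (hxy : x ≠ y) (b : Bool) (k : Fin M → Bool) (τ : Bool)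
    (h1 : ¬ (k = x ∧ τ = true)) (h2 : ¬ (k = y ∧ τ = b)) :
    (sg τ * ∑ a, zP x y b a * zz k a) / nP x y b ≤ 1 - 2 / ((M : ℝ) + 1) ∨
    ((sg τ * ∑ a, zP x y b a * zz k a) / nP x y b = 1 ∧
      -1 + 2 / ((M : ℝ) + 1) ≤ (sg τ * ∑ a, zQ x y b a * zz k a) / nQ x y b) := by
  have hP := nP_pos hxy b
  have hQ := nQ_pos hxy b
  have hM : (0 : ℝ) < (M : ℝ) + 1 := by positivity
  have hg : ∀ a, sg τ * zz k a = 1 ∨ sg τ * zz k a = -1 := by
    intro a
    rcases sg_or τ with h | h <;> rcases zz_sq k a with h' | h' <;> rw [h, h'] <;> norm_num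
  have eP : sg τ * ∑ a, zP x y b a * zz k a = ∑ a, zP x y b a * (sg τ * zz k a) := by
    rw [Finset.mul_sum]
    exact Finset.sum_congr rfl fun a _ => by ring
  have eQ : sg τ * ∑ a, zQ x y b a * zz k a = ∑ a, zQ x y b a * (sg τ * zz k a) := by
    rw [Finset.mul_sum]
    exact Finset.sum_congr rfl fun a _ => by ring
  rw [eP, eQ]
  have habs : ∀ a, |zP x y b a * (sg τ * zz k a)| ≤ zP x y b a ^ 2 ∧
      |zQ x y b a * (sg τ * zz k a)| ≤ zQ x y b a ^ 2 := fun a => pt_abs x y b a _ (hg a)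
  by_cases hall : ∀ a, zP x y b a * (sg τ * zz k a) = zP x y b a ^ 2
  · right
    have e1 : ∑ a, zP x y b a * (sg τ * zz k a) = nP x y b :=
      Finset.sum_congr rfl fun a _ => hall a
    refine ⟨by rw [e1, div_self hP.ne'], ?_⟩
    obtain ⟨a, ha⟩ : ∃ a, sg τ * zz k a ≠ sg b * zz y a := by
      by_contra hcon
      push Not at hcon
      have h0 := hcon 0
      rw [zz_zero, zz_zero, mul_one, mul_one] at h0
      have hτ := sg_injective h0
      refine h2 ⟨zz_inj ?_, hτ⟩
      funext a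
      have h3 := hcon a
      rw [hτ] at h3
      rcases sg_or b with h | h <;> rw [h] at h3 <;> linarith
    have hQa : zQ x y b a * (sg τ * zz k a) = 1 ∧ zQ x y b a ^ 2 = 1 := by
      have hf := pt_facts x y b a
      have hal := hall a
      rcases hf.2.2 with ⟨q1, q2, q3⟩ | ⟨q1, q2, q3⟩
      · exfalso
        apply ha
        have h4 := hf.1.1
        rw [← hal] at h4
        have h5 : zP x y b a ≠ 0 := by
          intro h; rw [h] at q1; norm_num at q1
        have h6 := mul_left_cancel₀ h5 h4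
        rw [← h6, q3]
      · refine ⟨?_, q1⟩
        have h7 : sg τ * zz k a = zz x a := by
          have h8 : sg b * zz y a = - zz x a := by linarith
          rw [h8] at ha
          rcases hg a with h | h <;> rcases zz_sq x a with h' | h' <;> rw [h, h'] at ha ⊢ <;>
            first | (exfalso; apply ha; norm_num; done) | rfl
        rw [h7, hf.2.1.1, q1]
    have hsum : 2 ≤ ∑ a, (zQ x y b a * (sg τ * zz k a) + zQ x y b a ^ 2) := by
      have h9 : zQ x y b a * (sg τ * zz k a) + zQ x y b a ^ 2 ≤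
          ∑ a, (zQ x y b a * (sg τ * zz k a) + zQ x y b a ^ 2) :=
        Finset.single_le_sum (f := fun a => zQ x y b a * (sg τ * zz k a) + zQ x y b a ^ 2)
          (fun i _ => by have := (abs_le.1 (habs i).2).1; linarith) (Finset.mem_univ a)
      rw [hQa.1, hQa.2] at h9
      linarith
    rw [Finset.sum_add_distrib] at hsum
    have hsum' : 2 - nQ x y b ≤ ∑ a, zQ x y b a * (sg τ * zz k a) := by
      unfold nQ; linarith
    rw [le_div_iff₀ hQ]
    have h10 : 2 / ((M : ℝ) + 1) * nQ x y b ≤ 2 := by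
      rw [div_mul_eq_mul_div, div_le_iff₀ hM]
      have := nQ_le x y b
      linarith
    linarith
  · left
    push Not at hall
    obtain ⟨a, ha⟩ := hall
    have hPa : zP x y b a * (sg τ * zz k a) = -1 ∧ zP x y b a ^ 2 = 1 := by
      rcases (pt_facts x y b a).2.2 with ⟨q1, q2, q3⟩ | ⟨q1, q2, q3⟩
      · refine ⟨?_, q1⟩
        have q4 : zP x y b a = 1 ∨ zP x y b a = -1 := sq_eq_one_iff.1 q1
        rw [q1] at ha
        rcases q4 with h | h <;> rcases hg a with h' | h' <;> rw [h, h'] at ha ⊢ <;>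
          first | (exfalso; apply ha; norm_num; done) | norm_num
      · exfalso
        apply ha
        rw [q2]; ring
    have hsum : 2 ≤ ∑ a, (zP x y b a ^ 2 - zP x y b a * (sg τ * zz k a)) := by
      have h9 : zP x y b a ^ 2 - zP x y b a * (sg τ * zz k a) ≤
          ∑ a, (zP x y b a ^ 2 - zP x y b a * (sg τ * zz k a)) :=
        Finset.single_le_sum (f := fun a => zP x y b a ^ 2 - zP x y b a * (sg τ * zz k a))
          (fun i _ => by have := (abs_le.1 (habs i).1).2; linarith) (Finset.mem_univ a)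
      rw [hPa.1, hPa.2] at h9
      linarith
    rw [Finset.sum_sub_distrib] at hsum
    have hsum' : ∑ a, zP x y b a * (sg τ * zz k a) ≤ nP x y b - 2 := by
      unfold nP; linarith
    rw [div_le_iff₀ hP]
    have h10 : 2 / ((M : ℝ) + 1) * nP x y b ≤ 2 := by
      rw [div_mul_eq_mul_div, div_le_iff₀ hM]
      have := nP_le x y b
      linarith
    linarith

theorem zz_inner {x k : Fin M → Bool} (h : k ≠ x) :
    |∑ a, zz x a * zz k a| ≤ (M : ℝ) + 1 - 2 := by
  have hpt : ∀ a, zz x a * zz k a ≤ 1 ∧ -1 ≤ zz x a * zz k a := by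
    intro a
    rcases zz_sq x a with h1 | h1 <;> rcases zz_sq k a with h2 | h2 <;> rw [h1, h2] <;> norm_num
  have hone : ∑ _a : Fin (M + 1), (1 : ℝ) = (M : ℝ) + 1 := by simp
  obtain ⟨a, ha⟩ := exists_ne h
  have e1 : 2 ≤ ∑ a, (1 - zz x a * zz k a) := by
    have h9 : 1 - zz x a.succ * zz k a.succ ≤ ∑ a, (1 - zz x a * zz k a) :=
      Finset.single_le_sum (f := fun a => 1 - zz x a * zz k a)
        (fun i _ => by have := (hpt i).1; linarith) (Finset.mem_univ a.succ)
    rw [zz_succ, zz_succ, ha] at h9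
    have h10 : -sg (k a) * sg (k a) = -1 := by
      rcases sg_or (k a) with h | h <;> rw [h] <;> norm_num
    rw [h10] at h9
    linarith
  have e2 : 2 ≤ ∑ a, (1 + zz x a * zz k a) := by
    have h9 : 1 + zz x 0 * zz k 0 ≤ ∑ a, (1 + zz x a * zz k a) :=
      Finset.single_le_sum (f := fun a => 1 + zz x a * zz k a)
        (fun i _ => by have := (hpt i).2; linarith) (Finset.mem_univ 0)
    rw [zz_zero, zz_zero] at h9
    linarith
  rw [Finset.sum_sub_distrib, hone] at e1
  rw [Finset.sum_add_distrib, hone] at e2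
  rw [abs_le]
  constructor <;> linarith

end Pool.Agent.Lib.MP_a3b162_co.ES
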